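import Pool.Agent.TH869.LPS.Main
import Pool.Agent.H639R3.LP.Ind

set_option autoImplicit false

/-!
# Power saving along polynomial sequences
-/

namespace Pool.Agent.TH869.LPS

open Finset Polynomial

lemma log_pos_of (ε : ℝ) (hε : 0 < ε) (hε2 : ε ≤ 1/2) : 1 / 2 < Real.log (1/ε) := by
  have h1 : Real.log 2 ≤ Real.log (1/ε) := by
    apply Real.log_le_log (by norm_num)
    rw [le_div_iff₀ hε]; linarith
  have := Real.log_two_gt_d9
  linarith

/-- Power saving when the leading coefficient is not resonant. -/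
theorem core (d : ℕ) : ∃ A : ℕ, 1 ≤ A ∧ ∀ (ε α : ℝ), 0 < ε → ε ≤ 1/2 → ∀ q₀ : ℕ,
    (∀ q : ℕ, q₀ ≤ q → ∀ p : ℤ, 2 * ε ≤ (q:ℝ) * |q * α - p|) →
    ∀ P : ℝ[X], P.natDegree ≤ d+1 → ∀ N B : ℕ, 1 ≤ B → B ≤ N →
    (∀ b : ℕ, 1 ≤ b → b ≤ B → ∀ u v : ℤ, (b:ℝ) * P.coeff (d+1) ≠ u + v * α) →
    ∀ E : Finset ℕ, E ⊆ range N → (∀ l ∈ E, Bad ε α (P.eval (l:ℝ))) →
    (E.card : ℝ) ≤ 4 / ε * N * (B:ℝ) ^ (-(ε / (A * Real.log (1/ε)))) := by
  obtain ⟨C, hC1, hC⟩ := param d
  set A₀ : ℕ := 7 * C + 3 with hA₀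
  refine ⟨80 * A₀, by omega, ?_⟩
  intro ε α hε hε2 q₀ h1 P hP N B hB hBN hθ E hE hbad
  have hlog := log_pos_of ε hε hε2
  set lg := Real.log (1/ε) with hlg
  have hlg0 : 0 < lg := by linarith
  have hi2 : 2 ≤ 1/ε := by rw [le_div_iff₀ hε]; linarith
  have hN : 1 ≤ N := hB.trans hBN
  have hNr : (0:ℝ) < N := by exact_mod_cast hN
  have hBr : (0:ℝ) < B := by exact_mod_cast hB
  have hA₀r : (0:ℝ) < A₀ := by
    have : 0 < A₀ := by omega
    exact_mod_cast this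
  -- choice of parameters
  obtain ⟨M, hM1, hM2⟩ : ∃ M : ℕ, 8/ε^2 ≤ (M:ℝ) ∧ (M:ℝ) ≤ 9/ε^2 := by
    refine ⟨⌈8/ε^2⌉₊, Nat.le_ceil _, ?_⟩
    have h2 := Nat.ceil_lt_add_one (by positivity : 0 ≤ 8/ε^2)
    have h3 : 1 ≤ 1/ε^2 := by rw [le_div_iff₀ (by positivity)]; nlinarith
    have h4 : 9/ε^2 = 8/ε^2 + 1/ε^2 := by ring
    linarith
  obtain ⟨R, hR1, hR2⟩ : ∃ R : ℕ, 109/ε^3 ≤ (R:ℝ) ∧ (R:ℝ) ≤ 110/ε^3 := by
    refine ⟨⌈109/ε^3⌉₊, Nat.le_ceil _, ?_⟩
    have h2 := Nat.ceil_lt_add_one (by positivity : 0 ≤ 109/ε^3)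
    have h3 : 1 ≤ 1/ε^3 := by
      rw [le_div_iff₀ (by positivity), one_mul]
      exact pow_le_one₀ hε.le (by linarith)
    have h4 : 110/ε^3 = 109/ε^3 + 1/ε^3 := by ring
    linarith
  obtain ⟨G, hG1, hG2⟩ : ∃ G : ℕ, 1/ε ≤ (G:ℝ) ∧ (G:ℝ) ≤ 3/(2*ε) := by
    refine ⟨⌈1/ε⌉₊, Nat.le_ceil _, ?_⟩
    have h2 := Nat.ceil_lt_add_one (by positivity : 0 ≤ 1/ε)
    have h4 : 3/(2*ε) = 1/ε + (1/ε)/2 := by field_simp; norm_num
    linarith
  have hRlog : Real.log R ≤ 10 * lg := by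
    have h2 : (R:ℝ) ≤ (1/ε)^10 := by
      refine hR2.trans ?_
      have h3 : (2:ℝ)^7 ≤ (1/ε)^7 := by gcongr
      have h4 : 110/ε^3 = 110 * (1/ε)^3 := by field_simp
      have h5 : (1/ε)^10 = (1/ε)^7 * (1/ε)^3 := by ring
      rw [h4, h5]
      gcongr
      linarith
    have h6 : (0:ℝ) < R := lt_of_lt_of_le (by positivity) hR1
    calc Real.log R ≤ Real.log ((1/ε)^10) := Real.log_le_log h6 h2
      _ = 10 * lg := by rw [Real.log_pow]; push_cast; ring
  have hR3 : (2:ℝ) ≤ R := by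
    refine le_trans ?_ hR1
    rw [le_div_iff₀ (by positivity)]
    have : ε^3 ≤ 1 := pow_le_one₀ hε.le (by linarith)
    linarith
  have hR3' : 2 ≤ R := by exact_mod_cast hR3
  set m : ℕ := Nat.log (R ^ A₀) B with hm
  have hbase : 1 < R ^ A₀ := Nat.one_lt_pow (by omega) hR3'
  have hm1 : (R ^ A₀) ^ m ≤ B := Nat.pow_log_le_self _ (by omega)
  have hm2 : B < (R ^ A₀) ^ (m+1) := Nat.lt_pow_succ_log_self hbase B
  have hlogB : Real.log B ≤ 10 * A₀ * (m+1) * lg := by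
    have h2 : (B:ℝ) ≤ ((R:ℝ) ^ A₀) ^ (m+1) := by exact_mod_cast hm2.le
    calc Real.log B ≤ Real.log (((R:ℝ) ^ A₀) ^ (m+1)) := Real.log_le_log hBr h2
      _ = (m+1) * (A₀ * Real.log R) := by rw [Real.log_pow, Real.log_pow]; push_cast; ring
      _ ≤ (m+1) * (A₀ * (10 * lg)) := by gcongr
      _ = _ := by ring
  set x : ℝ := ε / (((80 * A₀ : ℕ) : ℝ) * lg) with hx
  have hx0 : 0 < x := by
    rw [hx]; push_cast; positivity
  have hxB : x * Real.log B ≤ ε * (m+1) / 8 := by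
    calc x * Real.log B ≤ x * (10 * A₀ * (m+1) * lg) := by gcongr
      _ = ε * (m+1) / 8 := by
        rw [hx]; push_cast; field_simp; ring
  have hBx : Real.exp (-(ε * (m+1) / 8)) ≤ (B:ℝ) ^ (-x) := by
    rw [Real.rpow_def_of_pos hBr]
    apply Real.exp_le_exp.2
    linarith
  have hexp8 : Real.exp (1/8) ≤ 8/7 := by
    have h2 := Real.add_one_le_exp (-(1/8:ℝ))
    rw [Real.exp_neg] at h2
    have h3 := Real.exp_pos (1/8:ℝ)
    rw [inv_eq_one_div, le_div_iff₀ h3] at h2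
    linarith
  rcases Nat.lt_or_ge m 2 with hm3 | hm3
  · -- `B` is small
    have h2 : (E.card : ℝ) ≤ N := by
      have := card_le_card hE
      rw [card_range] at this
      exact_mod_cast this
    have h3 : (7/8:ℝ) ≤ (B:ℝ) ^ (-x) := by
      refine le_trans ?_ hBx
      have h4 : (m:ℝ) + 1 ≤ 2 := by
        have : m + 1 ≤ 2 := by omega
        exact_mod_cast this
      have h5 : ε * (m+1) / 8 ≤ 1/8 := by nlinarith
      have h6 := Real.add_one_le_exp (-(ε * (m+1) / 8))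
      linarith
    have h4 : (8:ℝ) ≤ 4/ε := by
      have : 4/ε = 4 * (1/ε) := by ring
      rw [this]; linarith
    calc (E.card : ℝ) ≤ N := h2
      _ ≤ 8 * N * (7/8) := by linarith
      _ ≤ 4 / ε * N * (B:ℝ) ^ (-x) := by gcongr
  · -- main case
    have h2 := hC ε α hε hε2 q₀ h1 P hP N B M R (m-1) G (by omega) hN hBN
      (by
        have : (0:ℝ) < G := lt_of_lt_of_le (by positivity) hG1
        exact_mod_cast this)
      (by
        rw [div_le_iff₀ (by positivity)] at hM1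
        nlinarith)
      (by
        have h3 : 12 * (M:ℝ) ≤ 108/ε^2 := by
          calc 12 * (M:ℝ) ≤ 12 * (9/ε^2) := by gcongr
            _ = _ := by ring
        have h4 : 109/ε^2 ≤ ε * R := by
          calc 109/ε^2 = ε * (109/ε^3) := by field_simp
            _ ≤ _ := by gcongr
        have h5 : 108/ε^2 < 109/ε^2 := by
          rw [div_lt_div_iff_of_pos_right (by positivity)]; norm_num
        linarith)
      (by
        rw [div_le_iff₀ hε] at hG1
        linarith)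
      (by
        have h3 : 4 + 2 * (M:ℝ) ≤ R := by
          refine le_trans ?_ hR1
          have h4 : 1 ≤ 1/ε^2 := by rw [le_div_iff₀ (by positivity)]; nlinarith
          have h5 : 1/ε^2 ≤ 1/ε^3 := by
            apply one_div_le_one_div_of_le (by positivity)
            apply pow_le_pow_of_le_one hε.le (by linarith) (by norm_num)
          have h6 : 9/ε^2 = 9 * (1/ε^2) := by ring
          have h7 : 109/ε^3 = 109 * (1/ε^3) := by ring
          rw [h7]
          rw [h6] at hM2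
          linarith
        exact_mod_cast h3)
      (by
        have : (7 * C + 3) * (m - 1 + 1) = A₀ * m := by
          rw [hA₀]; congr 1; omega
        rw [this, pow_mul]
        exact hm1)
      hθ E hE hbad
    have h3 : (1 - ε/8) ^ (m-1) ≤ Real.exp (1/8) * (B:ℝ) ^ (-x) := by
      have h4 : 1 - ε/8 ≤ Real.exp (-(ε/8)) := by
        have := Real.add_one_le_exp (-(ε/8))
        linarith
      calc (1 - ε/8) ^ (m-1) ≤ (Real.exp (-(ε/8))) ^ (m-1) := by
            apply pow_le_pow_left₀ (by linarith) h4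
        _ = Real.exp (-(ε * ((m:ℝ) - 1) / 8)) := by
            rw [← Real.exp_nat_mul]
            congr 1
            rw [Nat.cast_sub (by omega)]
            push_cast; ring
        _ = Real.exp (ε/4) * Real.exp (-(ε * (m+1) / 8)) := by
            rw [← Real.exp_add]; congr 1; ring
        _ ≤ Real.exp (1/8) * (B:ℝ) ^ (-x) :=
            mul_le_mul (Real.exp_le_exp.2 (by linarith)) hBx (Real.exp_pos _).le (Real.exp_pos _).le
    have h3' : (1 - ε/8) ^ (m-1) ≤ 8/7 * (B:ℝ) ^ (-x) := h3.trans (by gcongr)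
    have h5 : 0 ≤ (1 - ε/8) ^ (m-1) := pow_nonneg (by linarith) _
    calc (E.card : ℝ) ≤ G * (2 * (1 - ε / 8) ^ (m-1) * N) := h2
      _ ≤ (3/(2*ε)) * (2 * (8/7 * (B:ℝ) ^ (-x)) * N) := by
          gcongr
      _ = (24/7) / ε * N * (B:ℝ) ^ (-x) := by field_simp; ring
      _ ≤ 4 / ε * N * (B:ℝ) ^ (-x) := by
          gcongr
          norm_num

end Pool.Agent.TH869.LPS
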