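import Pool.Agent.TH869.LPS.Gen
import Pool.Agent.H332R2.Lit.Main

set_option autoImplicit false

/-!
# Power saving: the final statements
-/

namespace Pool.Agent.TH869.LPS

open Finset Polynomial Filter Pool.Agent.H639R3.LP Pool.Agent.H332R2.Lit

/-- `q ‖qα‖ ‖qβ - γ‖ < ε` for infinitely many `q` -/
def Gd (ε α β γ : ℝ) : Prop :=
  ∃ᶠ q : ℕ in atTop, (q : ℝ) * |q * α - round (q * α)| * |(q * β - γ) - round (q * β - γ)| < ε

/-- a point which is exceptional for some shift is `Bad`, and `α` is badly approximable. -/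
lemma bad_of_not_gd {ε α x γ : ℝ} (h : ¬ Gd ε α x γ) :
    Bad ε α x ∧ ∃ q₀ : ℕ, ∀ q : ℕ, q₀ ≤ q → ∀ p : ℤ, 2 * ε ≤ (q:ℝ) * |q * α - p| := by
  unfold Gd at h
  rw [not_frequently, eventually_atTop] at h
  obtain ⟨Q, hQ⟩ := h
  have hr : ∀ (q : ℕ) (p : ℤ), |(q:ℝ) * α - round ((q:ℝ) * α)| ≤ |(q:ℝ) * α - p| :=
    fun q p => round_le _ _
  refine ⟨⟨γ, Q, ?_⟩, Q, ?_⟩
  · intro q hq p hp n
    have h1 := hQ q hq
    push Not at h1
    have h2 : (q:ℝ) * |(q:ℝ) * α - round ((q:ℝ) * α)| ≤ 1 :=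
      (mul_le_mul_of_nonneg_left (hr q p) (Nat.cast_nonneg q)).trans hp.le
    calc ε ≤ _ := h1
      _ ≤ 1 * |(q * x - γ) - round (q * x - γ)| := by gcongr
      _ = |(q * x - γ) - round (q * x - γ)| := one_mul _
      _ ≤ |(q * x - γ) - n| := round_le _ _
  · intro q hq p
    have h1 := hQ q hq
    push Not at h1
    have h2 : |(q * x - γ) - round (q * x - γ)| ≤ 1/2 := abs_sub_round _
    have h3 : 0 ≤ (q:ℝ) * |(q:ℝ) * α - round ((q:ℝ) * α)| := by positivity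
    have h4 : ε ≤ (q:ℝ) * |(q:ℝ) * α - round ((q:ℝ) * α)| * (1/2) :=
      h1.trans (by gcongr)
    have h5 : (q:ℝ) * |(q:ℝ) * α - round ((q:ℝ) * α)| ≤ (q:ℝ) * |(q:ℝ) * α - p| :=
      mul_le_mul_of_nonneg_left (hr q p) (Nat.cast_nonneg q)
    linarith

open Classical in
/-- polynomial sequences -/
theorem poly (d : ℕ) : ∃ c C : ℝ, 0 < c ∧ c ≤ 1 ∧ 0 < C ∧ ∀ ε : ℝ, 0 < ε → ε ≤ 1/2 →
    ∀ (α : ℝ) (P : ℝ[X]), P.natDegree ≤ d → ∀ N B : ℕ, 1 ≤ B → B ≤ N →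
    (∀ b : ℕ, 1 ≤ b → b ≤ B → ∃ j, 1 ≤ j ∧ ∀ u v : ℤ, (b:ℝ) * P.coeff j ≠ u + v * α) →
    (((range N).filter (fun l : ℕ => ¬ ∀ γ : ℝ, Gd ε α (P.eval (l:ℝ)) γ)).card : ℝ) ≤
      C / ε * N * (B:ℝ) ^ (-(c * ε / Real.log (1/ε))) := by
  obtain ⟨A, C, hA, hC, h⟩ := gen d
  have hAr : (1:ℝ) ≤ A := by exact_mod_cast hA
  refine ⟨1 / A, C, by positivity, ?_, hC, ?_⟩
  · rw [div_le_one (by positivity)]; exact hAr
  intro ε hε hε2 α P hP N B hB hBN hj
  have hlog := log_pos_of ε hε hε2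
  have hNr : (0:ℝ) < N := by
    have : 0 < N := by omega
    exact_mod_cast this
  have hBr : (0:ℝ) < B := by exact_mod_cast hB
  set E := (range N).filter (fun l : ℕ => ¬ ∀ γ : ℝ, Gd ε α (P.eval (l:ℝ)) γ) with hE
  rcases E.eq_empty_or_nonempty with h0 | ⟨l₀, hl₀⟩
  · rw [h0]
    simp only [Finset.card_empty, Nat.cast_zero]
    positivity
  have hmem : ∀ l ∈ E, Bad ε α (P.eval (l:ℝ)) ∧
      ∃ q₀ : ℕ, ∀ q : ℕ, q₀ ≤ q → ∀ p : ℤ, 2 * ε ≤ (q:ℝ) * |q * α - p| := by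
    intro l hl
    have h1 := (Finset.mem_filter.1 hl).2
    push Not at h1
    obtain ⟨γ, hγ⟩ := h1
    exact bad_of_not_gd hγ
  obtain ⟨_, q₀, hq₀⟩ := hmem l₀ hl₀
  have h1 := h ε α hε hε2 q₀ hq₀ P hP N B hB hBN (by
    intro b hb hbB
    obtain ⟨j, hj1, hj2⟩ := hj b hb hbB
    refine ⟨j, hj1, ?_⟩
    rintro ⟨V, W, hVW⟩
    exact hj2 W V (by rw [hVW]; ring)) E (Finset.filter_subset _ _) (fun l hl => (hmem l hl).1)
  have e1 : (1 / (A:ℝ)) * ε / Real.log (1/ε) = ε / (A * Real.log (1/ε)) := by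
    field_simp
  rw [e1]
  exact h1

lemma split_pow (N : ℕ) (hN : 1 ≤ N) (y : ℝ) : (N:ℝ) * (N:ℝ) ^ (-y) = (N:ℝ) ^ (1 - y) := by
  have hNr : (0:ℝ) < N := by exact_mod_cast hN
  rw [sub_eq_add_neg, Real.rpow_add hNr, Real.rpow_one]

/-- the resonant case -/
lemma gd_of_relation {ε α β : ℝ} (hε : 0 < ε) (U V W : ℤ) (hU : U ≠ 0)
    (hrel : (U : ℝ) * β = V * α + W) (l : ℤ) : Gd ε α (l * β) 0 := by
  by_cases hbad : ∃ c : ℝ, 0 < c ∧ ∀ᶠ q : ℕ in atTop, c ≤ (q : ℝ) * |q * α - round (q * α)|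
  swap
  · exact freq_of_not_bad hbad (fun q => q * (l * β) - 0) hε
  obtain ⟨c, hc, hb⟩ := hbad
  have hα := irrational_of_bad hc hb
  unfold Gd
  simp only [sub_zero]
  rcases Int.natAbs_eq l with h | h
  · have h1 := freq_of_relation hα U V W hU hrel l.natAbs hε
    have e1 : ((l.natAbs : ℕ) : ℝ) = (l : ℝ) := by
      conv_rhs => rw [h]
      simp
    rw [e1] at h1
    exact h1
  · have h1 := freq_of_relation (β := -β) hα U (-V) (-W) hU (by push_cast; linarith) l.natAbs hε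
    have e1 : ((l.natAbs : ℕ) : ℝ) = -(l : ℝ) := by
      conv_rhs => rw [h]
      simp
    rw [e1] at h1
    have e2 : -(l:ℝ) * -β = l * β := by ring
    rw [e2] at h1
    exact h1

open Classical in
/-- integer polynomial multiples -/
theorem dil (d : ℕ) : ∃ c C : ℝ, 0 < c ∧ c ≤ 1 ∧ 0 < C ∧ ∀ ε : ℝ, 0 < ε → ε ≤ 1/2 →
    ∀ (α β : ℝ) (f : ℤ[X]), 1 ≤ f.natDegree → f.natDegree ≤ d → ∀ N : ℕ, 1 ≤ N →
    (((range N).filter (fun l : ℕ => ¬ Gd ε α (((f.eval (l:ℤ) : ℤ) : ℝ) * β) 0)).card : ℝ) ≤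
      C / ε * (N:ℝ) ^ (1 - c * ε / Real.log (1/ε)) := by
  obtain ⟨c, C, hc, hc1, hC, h⟩ := poly d
  refine ⟨c, C, hc, hc1, hC, ?_⟩
  intro ε hε hε2 α β f hf1 hfd N hN
  have hNr : (0:ℝ) < N := by exact_mod_cast hN
  by_cases hrel : ∃ U V W : ℤ, U ≠ 0 ∧ (U : ℝ) * β = V * α + W
  · obtain ⟨U, V, W, hU, hrel⟩ := hrel
    have h0 : (range N).filter (fun l : ℕ => ¬ Gd ε α (((f.eval (l:ℤ) : ℤ) : ℝ) * β) 0) = ∅ := by
      rw [Finset.filter_eq_empty_iff]
      intro l _ hcon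
      exact hcon (gd_of_relation hε U V W hU hrel _)
    rw [h0]
    simp only [Finset.card_empty, Nat.cast_zero]
    positivity
  · push Not at hrel
    set P : ℝ[X] := Polynomial.C β * f.map (Int.castRingHom ℝ) with hP
    have hPd : P.natDegree ≤ d :=
      (natDegree_C_mul_le _ _).trans (natDegree_map_le.trans hfd)
    have hPe : ∀ l : ℕ, P.eval (l:ℝ) = ((f.eval (l:ℤ) : ℤ) : ℝ) * β := by
      intro l
      rw [hP, eval_mul, eval_C, mul_comm]
      congr 1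
      have := Polynomial.eval_intCast_map (Int.castRingHom ℝ) f (l:ℤ)
      simpa using this
    have h1 := h ε hε hε2 α P hPd N N hN le_rfl (by
      intro b hb _
      refine ⟨f.natDegree, hf1, fun u v huv => ?_⟩
      rw [hP, coeff_C_mul, coeff_map] at huv
      have hl : f.coeff f.natDegree ≠ 0 := by
        rw [← leadingCoeff, Ne, leadingCoeff_eq_zero]
        rintro rfl
        simp at hf1
      refine hrel ((b:ℤ) * f.coeff f.natDegree) v u
        (mul_ne_zero (by exact_mod_cast (by omega : b ≠ 0)) hl) ?_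
      push_cast
      simp only [eq_intCast] at huv
      linarith)
    refine le_trans ?_ (h1.trans (le_of_eq ?_))
    · have : (range N).filter (fun l : ℕ => ¬ Gd ε α (((f.eval (l:ℤ) : ℤ) : ℝ) * β) 0) ⊆
          (range N).filter (fun l : ℕ => ¬ ∀ γ : ℝ, Gd ε α (P.eval (l:ℝ)) γ) := by
        intro l hl
        rw [Finset.mem_filter] at hl ⊢
        refine ⟨hl.1, fun hcon => hl.2 ?_⟩
        have := hcon 0
        rwa [hPe] at this
      exact_mod_cast Finset.card_le_card this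
    · rw [mul_assoc, split_pow N hN]

open Classical in
/-- equally spaced points -/
theorem grid : ∃ c C : ℝ, 0 < c ∧ c ≤ 1 ∧ 0 < C ∧ ∀ ε : ℝ, 0 < ε → ε ≤ 1/2 →
    ∀ (α β : ℝ) (M : ℕ), 1 ≤ M →
    (((range M).filter (fun l : ℕ => ¬ ∀ γ : ℝ, Gd ε α (β + l / M) γ)).card : ℝ) ≤
      C / ε * (M:ℝ) ^ (1 - c * ε / Real.log (1/ε)) := by
  obtain ⟨c, C, hc, hc1, hC, h⟩ := poly 1
  refine ⟨c, 2 * C + 1, hc, hc1, by positivity, ?_⟩
  intro ε hε hε2 α β M hM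
  have hlog := log_pos_of ε hε hε2
  have hMr : (0:ℝ) < M := by exact_mod_cast hM
  set y := c * ε / Real.log (1/ε) with hy
  have hy0 : 0 < y := by positivity
  have hy1 : y ≤ 1 := by
    rw [hy, div_le_one (by linarith)]
    nlinarith
  set E := (range M).filter (fun l : ℕ => ¬ ∀ γ : ℝ, Gd ε α (β + l / M) γ) with hE
  rcases E.eq_empty_or_nonempty with h0 | ⟨l₀, hl₀⟩
  · rw [h0]
    simp only [Finset.card_empty, Nat.cast_zero]
    positivity
  rcases Nat.lt_or_ge M 2 with hM2 | hM2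
  · have hM1 : M = 1 := by omega
    have h1 : E.card ≤ 1 := by
      rw [hE]
      refine (Finset.card_filter_le _ _).trans ?_
      rw [card_range]
      omega
    have h2 : (E.card : ℝ) ≤ 1 := by exact_mod_cast h1
    refine h2.trans ?_
    rw [hM1, Nat.cast_one, Real.one_rpow, mul_one, le_div_iff₀ hε]
    linarith
  -- `α` is irrational
  have hαirr : Irrational α := by
    have h1 := (Finset.mem_filter.1 hl₀).2
    push Not at h1
    obtain ⟨γ, hγ⟩ := h1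
    obtain ⟨_, q₀, hq₀⟩ := bad_of_not_gd hγ
    apply irrational_of_bad (c := 2 * ε) (by positivity)
    filter_upwards [eventually_ge_atTop q₀] with q hq
    exact hq₀ q hq _
  set P : ℝ[X] := Polynomial.C (1 / (M:ℝ)) * X + Polynomial.C β with hP
  have hPd : P.natDegree ≤ 1 := natDegree_linear_le
  have hPe : ∀ l : ℕ, P.eval (l:ℝ) = β + l / M := by
    intro l
    rw [hP, eval_add, eval_mul, eval_C, eval_C, eval_X]; ring
  have h1 := h ε hε hε2 α P hPd M (M-1) (by omega) (by omega) (by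
    intro b hb hbM
    refine ⟨1, le_rfl, fun u v huv => ?_⟩
    have hc1 : P.coeff 1 = 1 / (M:ℝ) := by
      rw [hP]; simp
    rw [hc1, mul_one_div, div_eq_iff hMr.ne'] at huv
    by_cases hv : v = 0
    · rw [hv, Int.cast_zero, zero_mul, add_zero] at huv
      have h2 : (b:ℤ) = u * M := by exact_mod_cast huv
      have h3 : 0 < u := by
        by_contra hcon
        push Not at hcon
        have : u * M ≤ 0 := mul_nonpos_of_nonpos_of_nonneg hcon (by omega)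
        omega
      have h4 : 1 * (M:ℤ) ≤ u * M := by
        apply mul_le_mul_of_nonneg_right _ (by omega)
        omega
      omega
    · apply hαirr
      refine ⟨((b:ℚ) / M - u) / v, ?_⟩
      have hvr : (v:ℝ) ≠ 0 := by exact_mod_cast hv
      push_cast
      rw [div_eq_iff hvr, sub_eq_iff_eq_add, div_eq_iff hMr.ne', huv]
      ring)
  have h2 : (((M-1:ℕ):ℝ)) ^ (-y) ≤ 2 * (M:ℝ) ^ (-y) := by
    have h3 : (M:ℝ) / 2 ≤ ((M-1:ℕ):ℝ) := by
      rw [Nat.cast_sub hM]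
      have : (2:ℝ) ≤ M := by exact_mod_cast hM2
      push_cast; linarith
    have h4 : (0:ℝ) < ((M-1:ℕ):ℝ) := lt_of_lt_of_le (by positivity) h3
    have h5 : (M:ℝ) ^ y ≤ 2 * ((M-1:ℕ):ℝ) ^ y := by
      calc (M:ℝ) ^ y ≤ (2 * ((M-1:ℕ):ℝ)) ^ y := by
            apply Real.rpow_le_rpow hMr.le (by linarith) hy0.le
        _ = 2 ^ y * ((M-1:ℕ):ℝ) ^ y := Real.mul_rpow (by norm_num) h4.le
        _ ≤ 2 ^ (1:ℝ) * ((M-1:ℕ):ℝ) ^ y := by
            gcongr
            norm_num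
        _ = _ := by rw [Real.rpow_one]
    rw [Real.rpow_neg h4.le, Real.rpow_neg hMr.le]
    have h6 : 0 < ((M-1:ℕ):ℝ) ^ y := Real.rpow_pos_of_pos h4 _
    have h7 : 0 < (M:ℝ) ^ y := Real.rpow_pos_of_pos hMr _
    rw [← one_div, ← div_eq_mul_inv, div_le_div_iff₀ h6 h7]
    linarith
  have hEE : E = (range M).filter (fun l : ℕ => ¬ ∀ γ : ℝ, Gd ε α (P.eval (l:ℝ)) γ) := by
    rw [hE]
    apply Finset.filter_congr
    intro l _
    rw [hPe]
  rw [hEE]
  refine h1.trans ?_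
  rw [← split_pow M hM]
  calc C / ε * M * (((M-1:ℕ):ℝ)) ^ (-y) ≤ C / ε * M * (2 * (M:ℝ) ^ (-y)) := by gcongr
    _ = (2 * C) / ε * (M * (M:ℝ) ^ (-y)) := by ring
    _ ≤ (2 * C + 1) / ε * (M * (M:ℝ) ^ (-y)) := by
        gcongr
        linarith

end Pool.Agent.TH869.LPS
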