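import Pool.Agent.H238R3.UL.Poly

set_option autoImplicit false

/-!
# A quantitative form of Weyl's inequality
-/

namespace Pool.Agent.TH869.LPS

open Finset Polynomial Pool.Agent.H332R2.Lit Pool.Agent.H238R3.UL

/-- Weyl's inequality: the sum is small unless a small multiple of the leading coefficient is very
close to an integer, with power dependence. -/
theorem weylQ (d : ℕ) : ∃ C : ℕ, 1 ≤ C ∧ ∀ κ : ℝ, 0 < κ → κ ≤ 1 →
    ∀ P : ℝ[X], P.natDegree ≤ d+1 → ∀ N : ℕ, 1 ≤ N →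
      (∀ m : ℕ, 1 ≤ m → (m:ℝ) ≤ C * (1/κ)^C →
        C * (1/κ)^C / N ≤ |(m:ℝ) * P.coeff (d+1) - round ((m:ℝ) * P.coeff (d+1))|) →
      ‖∑ l ∈ range N, e (P.eval (l:ℝ))‖ ≤ κ * N := by
  induction d with
  | zero =>
    refine ⟨1, le_rfl, fun κ hκ hκ1 P hP N hN hm => ?_⟩
    have hNr : (0:ℝ) < N := by exact_mod_cast hN
    have h1 := hm 1 le_rfl (by
      rw [Nat.cast_one, one_mul, pow_one, le_div_iff₀ hκ]; linarith)
    rw [Nat.cast_one, one_mul, one_mul, pow_one] at h1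
    have h2 : ∀ l ∈ range N, e (P.eval (l:ℝ)) = e (P.coeff 0) * e ((l:ℝ) * P.coeff 1) := by
      intro l _
      rw [← e_add, eval_eq_sum_range' (n := 2) (by omega)]
      simp only [Finset.sum_range_succ, Finset.sum_range_zero]
      congr 1
      ring
    rw [Finset.sum_congr rfl h2, ← Finset.mul_sum, norm_mul, norm_e, one_mul]
    refine (norm_geom_le _ (1/κ/N) (by positivity) h1 N).trans ?_
    have h3 : 1 / (2 * (1 / κ / N)) = κ * N / 2 := by field_simp
    rw [h3]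
    have : 0 < κ * N := by positivity
    linarith
  | succ d ih =>
    obtain ⟨C', hC'1, hC'⟩ := ih
    set C : ℕ := (d+2) * 6 * C' * 8 ^ C' + 2 * C' + 2 with hC
    refine ⟨C, by omega, fun κ hκ hκ1 P hP N hN hm => ?_⟩
    have hNr : (0:ℝ) < N := by exact_mod_cast hN
    have hκi : 1 ≤ 1/κ := by rw [le_div_iff₀ hκ]; linarith
    have hC'r : (1:ℝ) ≤ C' := by exact_mod_cast hC'1
    have h8 : (1:ℝ) ≤ 8 ^ C' := one_le_pow₀ (by norm_num)
    have hd0 : (0:ℝ) ≤ d := Nat.cast_nonneg _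
    have hCr : (C:ℝ) = (d+2) * 6 * C' * 8 ^ C' + 2 * C' + 2 := by rw [hC]; push_cast; ring
    have hC6 : (6:ℝ) ≤ C := by
      rw [hCr]
      have : (2:ℝ) * 6 * 1 * 1 ≤ (d+2) * 6 * C' * 8 ^ C' := by
        gcongr
        linarith
      linarith
    have hpw : (1/κ) ^ (2 + 2 * C') ≤ (1/κ) ^ C := by
      apply pow_le_pow_right₀ hκi; omega
    set κ' : ℝ := κ^2/8 with hκ'
    have hκ'0 : 0 < κ' := by positivity
    have hκ'1 : κ' ≤ 1 := by rw [hκ']; nlinarith
    have hK' : (C':ℝ) * (1/κ')^C' = C' * 8 ^ C' * (1/κ)^(2*C') := by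
      rw [hκ', pow_mul, mul_assoc, ← mul_pow]
      congr 2
      field_simp
    obtain ⟨H, hH, hH'⟩ : ∃ H : ℕ, 4/κ^2 + 1 ≤ (H:ℝ) ∧ (H:ℝ) ≤ 6 * (1/κ)^2 := by
      refine ⟨⌈4/κ^2 + 1⌉₊, Nat.le_ceil _, ?_⟩
      have h1 := Nat.ceil_lt_add_one (by positivity : 0 ≤ 4/κ^2 + 1)
      have h2 : 4/κ^2 = 4 * (1/κ)^2 := by field_simp
      have h3 : 1 ≤ (1/κ)^2 := one_le_pow₀ hκi
      rw [h2] at h1 ⊢
      linarith
    have hH0 : (0:ℝ) < H := lt_of_lt_of_le (by positivity) hH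
    -- `N` is large
    have hNbig : 2 * (H:ℝ) ≤ N := by
      have h1 := hm 1 le_rfl (by
        push_cast
        have : 1 ≤ (1/κ)^C := one_le_pow₀ hκi
        nlinarith [mul_le_mul (by linarith : (1:ℝ) ≤ C) this zero_le_one (by linarith : (0:ℝ) ≤ C)])
      have h2 := h1.trans (abs_sub_round _)
      rw [div_le_iff₀ hNr] at h2
      have h3 : (1/κ)^2 ≤ (1/κ)^C := pow_le_pow_right₀ hκi (by omega)
      have h4 : 6 * (1/κ)^2 ≤ C * (1/κ)^C := by
        gcongr
      linarith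
    have hHN : (H:ℝ) ≤ N := by linarith
    have hv := Pool.Agent.H469R2.NK.vdcH (fun l => e (P.eval (l:ℝ))) (fun l => (norm_e _).le) N H
    have hsum : ∀ l ∈ Ico 1 H, ‖∑ n ∈ range (N - l), e (P.eval ((n + l : ℕ):ℝ)) *
        (starRingEnd ℂ) (e (P.eval (n:ℝ)))‖ ≤ κ' * N := by
      intro l hl
      obtain ⟨hl1, hl2⟩ := Finset.mem_Ico.1 hl
      obtain ⟨hd1, hd2⟩ := diff_coeff P d hP (l:ℝ)
      have hlH : (l:ℝ) ≤ H := by exact_mod_cast hl2.le
      have hlN : l ≤ N := by exact_mod_cast (hlH.trans hHN)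
      have hNl : (N:ℝ) / 2 ≤ ((N - l : ℕ) : ℝ) := by
        rw [Nat.cast_sub hlN]; linarith
      have hNl1 : 1 ≤ N - l := by
        have : (0:ℝ) < ((N - l : ℕ) : ℝ) := lt_of_lt_of_le (by positivity) hNl
        exact_mod_cast this
      have h1 := hC' κ' hκ'0 hκ'1 (taylor (l:ℝ) P - P) hd1 (N - l) hNl1 (by
        intro m m1 m2
        rw [hK'] at m2
        have h2 := hm ((d+2)*l*m) (by
            have : 0 < (d+2)*l*m := by
              have : 0 < l := by omega
              have : 0 < m := by omega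
              positivity
            omega) (by
          push_cast
          calc ((d:ℝ)+2)*l*m ≤ (d+2) * (6 * (1/κ)^2) * (C' * 8 ^ C' * (1/κ)^(2*C')) := by
                gcongr
                exact hlH.trans hH'
            _ = ((d+2) * 6 * C' * 8 ^ C') * (1/κ)^(2 + 2*C') := by ring
            _ ≤ C * (1/κ)^C := by
                gcongr
                rw [hCr]; linarith)
        rw [hd2]
        have e1 : ((((d+2)*l*m : ℕ)) : ℝ) * P.coeff (d+1+1) = (m:ℝ) * ((d+2) * l * P.coeff (d+2)) := by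
          push_cast; ring
        rw [e1] at h2
        refine le_trans ?_ h2
        rw [hK']
        calc (C':ℝ) * 8 ^ C' * (1/κ)^(2*C') / ((N - l : ℕ) : ℝ)
            ≤ (C':ℝ) * 8 ^ C' * (1/κ)^(2*C') / ((N:ℝ)/2) := by gcongr
          _ = 2 * (C':ℝ) * 8 ^ C' * (1/κ)^(2*C') / N := by field_simp
          _ ≤ C * (1/κ)^C / N := by
              gcongr
              · rw [hCr]
                have : 0 ≤ (C':ℝ) * 8 ^ C' := by positivity
                nlinarith
              · omega)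
      have e2 : ∀ n ∈ range (N-l), e (P.eval ((n + l : ℕ):ℝ)) * (starRingEnd ℂ) (e (P.eval (n:ℝ)))
          = e ((taylor (l:ℝ) P - P).eval (n:ℝ)) := by
        intro n _
        rw [conj_e, ← e_add, eval_sub, taylor_eval]
        congr 1
        push_cast; ring
      rw [Finset.sum_congr rfl e2]
      refine h1.trans ?_
      have : ((N - l : ℕ):ℝ) ≤ N := by exact_mod_cast Nat.sub_le _ _
      gcongr
    have h2 : ∑ l ∈ Ico 1 H, ‖∑ n ∈ range (N - l), e (P.eval ((n + l : ℕ):ℝ)) *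
        (starRingEnd ℂ) (e (P.eval (n:ℝ)))‖ ≤ H * (κ' * N) := by
      refine (Finset.sum_le_sum hsum).trans ?_
      rw [Finset.sum_const, Nat.card_Ico, nsmul_eq_mul]
      have : ((H - 1 : ℕ):ℝ) ≤ H := by exact_mod_cast Nat.sub_le _ _
      gcongr
    have h3 : (H:ℝ) * ‖∑ l ∈ range N, e (P.eval (l:ℝ))‖^2 ≤ (N + N) * (N + 2 * (H * (κ' * N))) := by
      refine hv.trans ?_
      gcongr
    have h4 : 4 ≤ κ^2 * H := by
      have : 4/κ^2 ≤ H := by linarith
      rw [div_le_iff₀ (by positivity)] at this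
      linarith
    have h5 : (H:ℝ) * ‖∑ l ∈ range N, e (P.eval (l:ℝ))‖^2 ≤ H * (κ * N)^2 := by
      refine h3.trans ?_
      have e3 : ((N:ℝ) + N) * (N + 2 * (H * (κ' * N))) = N^2 * (2 + κ^2 * H / 2) := by
        rw [hκ']; ring
      have e4 : (H:ℝ) * (κ * N)^2 = N^2 * (κ^2 * H) := by ring
      rw [e3, e4]
      gcongr
      linarith
    have h6 : ‖∑ l ∈ range N, e (P.eval (l:ℝ))‖^2 ≤ (κ * N)^2 := le_of_mul_le_mul_left h5 hH0
    exact (pow_le_pow_iff_left₀ (norm_nonneg _) (by positivity) two_ne_zero).1 h6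

end Pool.Agent.TH869.LPS
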