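import Pool.Agent.TH869.LPS.Fej

set_option autoImplicit false

/-!
# Counting with products of majorants
-/

namespace Pool.Agent.TH869.LPS

open Finset Pool.Agent.H332R2.Lit

section

variable (x : ℕ → ℝ) (N M : ℕ) (c : ℤ → ℂ) (f : ℝ → ℝ) (S L : ℝ) (g : ℝ) (q : ℕ → ℕ)

/-- the twisted sum of products -/
noncomputable def Sn (n : ℕ) (w : ℝ) : ℂ :=
  ∑ l ∈ range N, e (w * x l) * ∏ i ∈ range n, ((f (q i * x l - g) : ℝ) : ℂ)

lemma Sn_succ (hf : ∀ t, (f t : ℂ) = ∑ h ∈ Ioo (-(M:ℤ)) M, c h * e (h * t)) (n : ℕ) (w : ℝ) :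
    Sn x N f g q (n+1) w =
      ∑ h ∈ Ioo (-(M:ℤ)) M, c h * e (-(h * g)) * Sn x N f g q n (w + h * q n) := by
  unfold Sn
  simp only [mul_sum]
  rw [sum_comm]
  refine sum_congr rfl fun l _ => ?_
  rw [prod_range_succ, hf, mul_sum, mul_sum]
  refine sum_congr rfl fun h _ => ?_
  have h1 : e ((h:ℝ) * (q n * x l - g)) = e (-(h * g)) * e (h * q n * x l) := by
    rw [← e_add]; congr 1; ring
  have h2 : e ((w + h * q n) * x l) = e (w * x l) * e (h * q n * x l) := by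
    rw [← e_add]; congr 1; ring
  rw [h1, h2]; ring

lemma mem_abs {M : ℕ} {h : ℤ} (hh : h ∈ Ioo (-(M:ℤ)) M) : |(h:ℝ)| ≤ M - 1 := by
  rw [mem_Ioo] at hh
  have : |h| ≤ M - 1 := by rw [abs_le]; omega
  have h2 : ((|h| : ℤ) : ℝ) ≤ ((M - 1 : ℤ) : ℝ) := by exact_mod_cast this
  push_cast at h2
  exact h2

lemma sum_upd (h : ℕ → ℤ) (n : ℕ) (k : ℤ) :
    ∑ i ∈ range (n+1), ((Function.update h n k i : ℤ) : ℝ) * q i =
      k * q n + ∑ i ∈ range n, (h i : ℝ) * q i := by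
  rw [sum_range_succ, Function.update_self, add_comm]
  congr 1
  refine sum_congr rfl fun i hi => ?_
  rw [Function.update_of_ne (by have := mem_range.1 hi; omega)]

lemma Sn_A (hf : ∀ t, (f t : ℂ) = ∑ h ∈ Ioo (-(M:ℤ)) M, c h * e (h * t))
    (hL : ∑ h ∈ Ioo (-(M:ℤ)) M, ‖c h‖ ≤ L) (hL0 : 0 ≤ L) (hS : 0 ≤ S) (n : ℕ) : ∀ w : ℝ,
    (∀ h : ℕ → ℤ, (∀ i < n, |(h i : ℝ)| ≤ M - 1) →
      ‖∑ l ∈ range N, e ((w + ∑ i ∈ range n, (h i : ℝ) * q i) * x l)‖ ≤ S) →
    ‖Sn x N f g q n w‖ ≤ L ^ n * S := by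
  induction n with
  | zero =>
    intro w hw
    have := hw (fun _ => 0) (by simp)
    unfold Sn
    simpa using this
  | succ n ih =>
    intro w hw
    rw [Sn_succ x N M c f g q hf]
    refine (norm_sum_le _ _).trans ?_
    have h1 : ∀ h ∈ Ioo (-(M:ℤ)) M, ‖c h * e (-(h * g)) * Sn x N f g q n (w + h * q n)‖ ≤
        ‖c h‖ * (L ^ n * S) := by
      intro k hk
      rw [norm_mul, norm_mul, norm_e, mul_one]
      gcongr
      apply ih
      intro h hh
      have h2 := hw (Function.update h n k) (by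
        intro i hi
        by_cases hin : i = n
        · rw [hin, Function.update_self]; exact mem_abs hk
        · rw [Function.update_of_ne hin]; exact hh i (by omega))
      rw [sum_upd, ← add_assoc] at h2
      exact h2
    refine (sum_le_sum h1).trans ?_
    rw [← sum_mul]
    calc (∑ h ∈ Ioo (-(M:ℤ)) M, ‖c h‖) * (L ^ n * S) ≤ L * (L ^ n * S) := by gcongr
      _ = _ := by ring

lemma Sn_B (hM : 1 ≤ M) (hf : ∀ t, (f t : ℂ) = ∑ h ∈ Ioo (-(M:ℤ)) M, c h * e (h * t))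
    (hL : ∑ h ∈ Ioo (-(M:ℤ)) M, ‖c h‖ ≤ L) (hL0 : 0 ≤ L) (hS : 0 ≤ S) (s : ℝ) (hs : s ≤ 1)
    (hc0 : c 0 = ((1 - s : ℝ) : ℂ)) (n : ℕ) :
    (∀ h : ℕ → ℤ, (∀ i < n, |(h i : ℝ)| ≤ M - 1) → (∃ i < n, h i ≠ 0) →
      ‖∑ l ∈ range N, e ((∑ i ∈ range n, (h i : ℝ) * q i) * x l)‖ ≤ S) →
    ‖Sn x N f g q n 0‖ ≤ (1 - s) ^ n * N + L ^ n * S := by
  have hM1 : (1:ℝ) ≤ M := by exact_mod_cast hM
  induction n with
  | zero =>
    intro _
    unfold Sn
    simp [e_zero]
    exact hS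
  | succ n ih =>
    intro hw
    have hmem0 : (0:ℤ) ∈ Ioo (-(M:ℤ)) M := by rw [mem_Ioo]; omega
    rw [Sn_succ x N M c f g q hf, ← add_sum_erase _ _ hmem0]
    have h0 : ‖Sn x N f g q n 0‖ ≤ (1 - s) ^ n * N + L ^ n * S := by
      apply ih
      intro h hh hne
      have h2 := hw (Function.update h n 0) (by
        intro i hi
        by_cases hin : i = n
        · rw [hin, Function.update_self]
          simp; exact hM
        · rw [Function.update_of_ne hin]; exact hh i (by omega))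
        (by
          obtain ⟨i, hi, hi0⟩ := hne
          refine ⟨i, by omega, ?_⟩
          rwa [Function.update_of_ne (by omega)])
      rw [sum_upd, Int.cast_zero, zero_mul, zero_add] at h2
      exact h2
    have hc0n : ‖c 0‖ = 1 - s := by
      rw [hc0, Complex.norm_real, Real.norm_of_nonneg (by linarith)]
    have h1 : ‖c 0 * e (-(((0:ℤ):ℝ) * g)) * Sn x N f g q n (0 + ((0:ℤ):ℝ) * q n)‖ ≤
        (1 - s) * ((1 - s) ^ n * N + L ^ n * S) := by
      rw [norm_mul, norm_mul, norm_e, mul_one, hc0n, Int.cast_zero, zero_mul, add_zero]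
      have : 0 ≤ 1 - s := by linarith
      gcongr
    have h2 : ‖∑ h ∈ (Ioo (-(M:ℤ)) M).erase 0, c h * e (-(h * g)) * Sn x N f g q n (0 + h * q n)‖ ≤
        (L - (1 - s)) * (L ^ n * S) := by
      refine (norm_sum_le _ _).trans ?_
      have h3 : ∀ h ∈ (Ioo (-(M:ℤ)) M).erase 0,
          ‖c h * e (-(h * g)) * Sn x N f g q n (0 + h * q n)‖ ≤ ‖c h‖ * (L ^ n * S) := by
        intro k hk
        rw [mem_erase] at hk
        rw [norm_mul, norm_mul, norm_e, mul_one]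
        gcongr
        apply Sn_A x N M c f S L g q hf hL hL0 hS
        intro h hh
        have h2 := hw (Function.update h n k) (by
          intro i hi
          by_cases hin : i = n
          · rw [hin, Function.update_self]; exact mem_abs hk.2
          · rw [Function.update_of_ne hin]; exact hh i (by omega))
          ⟨n, by omega, by rw [Function.update_self]; exact hk.1⟩
        rw [sum_upd] at h2
        rw [zero_add]
        exact h2
      refine (sum_le_sum h3).trans ?_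
      rw [← sum_mul]
      gcongr
      have := add_sum_erase _ (fun h => ‖c h‖) hmem0
      rw [hc0n] at this
      linarith
    refine (norm_add_le _ _).trans ((add_le_add h1 h2).trans (le_of_eq ?_))
    ring

/-- The counting bound. -/
theorem count (hM : 1 ≤ M) (hf : ∀ t, (f t : ℂ) = ∑ h ∈ Ioo (-(M:ℤ)) M, c h * e (h * t))
    (hf0 : ∀ t, 0 ≤ f t) (η : ℝ) (hf1 : ∀ t : ℝ, (∀ n : ℤ, η ≤ |t - n|) → 1 ≤ f t)
    (hL : ∑ h ∈ Ioo (-(M:ℤ)) M, ‖c h‖ ≤ L) (hL0 : 0 ≤ L) (hS : 0 ≤ S) (s : ℝ) (hs : s ≤ 1)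
    (hc0 : c 0 = ((1 - s : ℝ) : ℂ)) (I : ℕ)
    (hw : ∀ h : ℕ → ℤ, (∀ i < I, |(h i : ℝ)| ≤ M - 1) → (∃ i < I, h i ≠ 0) →
      ‖∑ l ∈ range N, e ((∑ i ∈ range I, (h i : ℝ) * q i) * x l)‖ ≤ S)
    (E : Finset ℕ) (hE : E ⊆ range N)
    (hE1 : ∀ l ∈ E, ∀ i < I, ∀ n : ℤ, η ≤ |(q i * x l - g) - n|) :
    (E.card : ℝ) ≤ (1 - s) ^ I * N + L ^ I * S := by
  have h1 : (E.card : ℝ) ≤ ∑ l ∈ range N, ∏ i ∈ range I, f (q i * x l - g) := by
    calc (E.card : ℝ) = ∑ l ∈ E, (1:ℝ) := by simp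
      _ ≤ ∑ l ∈ E, ∏ i ∈ range I, f (q i * x l - g) := by
          refine sum_le_sum fun l hl => ?_
          have : ∏ i ∈ range I, (1:ℝ) ≤ ∏ i ∈ range I, f (q i * x l - g) := by
            apply prod_le_prod
            · intros; norm_num
            · intro i hi
              exact hf1 _ (hE1 l hl i (mem_range.1 hi))
          simpa using this
      _ ≤ _ := sum_le_sum_of_subset_of_nonneg hE (fun l _ _ => prod_nonneg fun i _ => hf0 _)
  have h2 : ((∑ l ∈ range N, ∏ i ∈ range I, f (q i * x l - g) : ℝ) : ℂ) = Sn x N f g q I 0 := by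
    unfold Sn
    push_cast
    refine sum_congr rfl fun l _ => ?_
    rw [zero_mul, e_zero, one_mul]
  have h3 := Sn_B x N M c f S L g q hM hf hL hL0 hS s hs hc0 I hw
  rw [← h2, Complex.norm_real, Real.norm_of_nonneg
    (sum_nonneg fun l _ => prod_nonneg fun i _ => hf0 _)] at h3
  exact h1.trans h3

end

end Pool.Agent.TH869.LPS
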