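import Mathlib

set_option autoImplicit false

/-!
# Integer relations from near relations at all scales
-/

namespace Pool.Agent.TH869.LPS

/-- Vectors `(w s, P s, T s)`, consecutive triples of which are linearly dependent, are in a
plane. -/
lemma plane (w P T : ℕ → ℤ)
    (hdet : ∀ s, w s * (P (s+1) * T (s+2) - P (s+2) * T (s+1))
      - P s * (w (s+1) * T (s+2) - w (s+2) * T (s+1))
      + T s * (w (s+1) * P (s+2) - w (s+2) * P (s+1)) = 0)
    (hm : ∀ s, w s * P (s+1) - w (s+1) * P s ≠ 0) :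
    ∀ s, (P 0 * T 1 - P 1 * T 0) * w s + (T 0 * w 1 - T 1 * w 0) * P s
      + (w 0 * P 1 - w 1 * P 0) * T s = 0 := by
  have key : ∀ s, (P 0 * T 1 - P 1 * T 0) * w s + (T 0 * w 1 - T 1 * w 0) * P s
      + (w 0 * P 1 - w 1 * P 0) * T s = 0 ∧
      (P 0 * T 1 - P 1 * T 0) * w (s+1) + (T 0 * w 1 - T 1 * w 0) * P (s+1)
      + (w 0 * P 1 - w 1 * P 0) * T (s+1) = 0 := by
    intro s
    induction s with
    | zero => constructor <;> ring
    | succ s ih =>
      obtain ⟨h1, h2⟩ := ih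
      refine ⟨h2, ?_⟩
      have h3 : (w s * P (s+1) - w (s+1) * P s) *
          ((P 0 * T 1 - P 1 * T 0) * w (s+2) + (T 0 * w 1 - T 1 * w 0) * P (s+2)
          + (w 0 * P 1 - w 1 * P 0) * T (s+2)) = 0 := by
        linear_combination (w (s+2) * P (s+1) - w (s+1) * P (s+2)) * h1
          + (w s * P (s+2) - w (s+2) * P s) * h2 + (w 0 * P 1 - w 1 * P 0) * hdet s
      exact (mul_eq_zero.1 h3).resolve_left (hm s)
  exact fun s => (key s).1

lemma int_eq_zero_of_abs_lt_one (n : ℤ) (h : |(n:ℝ)| < 1) : n = 0 := by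
  have h1 : |n| < 1 := by exact_mod_cast h
  exact Int.abs_lt_one_iff.1 h1

/-- The determinant argument. -/
theorem det_core (α θ : ℝ) (w P T : ℕ → ℤ) (ε X Y W D τ : ℝ) (hε : 0 < ε) (hX : 0 < X)
    (hY : 1 < Y) (hW : 0 < W) (hD : 0 < D)
    (hw1 : ∀ s, ε * (X * Y ^ s) ≤ |(w s : ℝ)|)
    (hw2 : ∀ s, |(w s : ℝ)| ≤ W * (X * Y ^ s))
    (hd1 : ∀ s, 2 * ε ≤ |(w s : ℝ)| * |w s * α - P s|)
    (hd2 : ∀ s, |w s * α - P s| ≤ D / (X * Y ^ s))
    (ht : ∀ s, |w s * θ - T s| ≤ τ)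
    (c1 : W ^ 2 * D < 2 * ε ^ 2 * Y ^ 2) (c2 : 6 * W * D * Y ^ 2 * τ < 1) :
    ∃ c : ℕ, 1 ≤ c ∧ (c : ℝ) ≤ 2 * W * D * Y ∧ ∃ u v : ℤ, (c : ℝ) * θ = u + v * α := by
  have hXs : ∀ s : ℕ, 0 < X * Y ^ s := fun s => by positivity
  have hY0 : 0 < Y := by linarith
  have hτ : 0 ≤ τ := (abs_nonneg _).trans (ht 0)
  set δ : ℕ → ℝ := fun s => w s * α - P s with hδ
  set ρ : ℕ → ℝ := fun s => w s * θ - T s with hρ
  have hw0 : ∀ s, 0 < |(w s : ℝ)| := fun s => lt_of_lt_of_le (by positivity) (hw1 s)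
  -- consecutive `2 × 2` minors
  have hm : ∀ s, w s * P (s+1) - w (s+1) * P s ≠ 0 := by
    intro s h0
    have h1 : (w (s+1) : ℝ) * δ s = w s * δ (s+1) := by
      have : ((w s * P (s+1) - w (s+1) * P s : ℤ) : ℝ) = 0 := by rw [h0]; simp
      push_cast at this
      simp only [hδ]
      linear_combination this
    have h2 : |(w (s+1) : ℝ)| * |δ s| = |(w s : ℝ)| * |δ (s+1)| := by
      rw [← abs_mul, ← abs_mul, h1]
    have h3 : |(w s : ℝ)| * |δ (s+1)| ≤ W * (X * Y ^ s) * (D / (X * Y ^ (s+1))) := by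
      apply mul_le_mul (hw2 s) (hd2 (s+1)) (abs_nonneg _) (by positivity)
    have h4 : W * (X * Y ^ s) * (D / (X * Y ^ (s+1))) = W * D / Y := by
      rw [pow_succ]; field_simp
    have h5 : 2 * ε / (W * (X * Y ^ s)) ≤ |δ s| := by
      rw [div_le_iff₀ (by positivity)]
      calc 2 * ε ≤ |(w s : ℝ)| * |δ s| := hd1 s
        _ ≤ W * (X * Y ^ s) * |δ s| := by gcongr; exact hw2 s
        _ = _ := by ring
    have h6 : ε * (X * Y ^ (s+1)) * (2 * ε / (W * (X * Y ^ s))) ≤ |(w (s+1) : ℝ)| * |δ s| := by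
      apply mul_le_mul (hw1 (s+1)) h5 (by positivity) (abs_nonneg _)
    have h7 : ε * (X * Y ^ (s+1)) * (2 * ε / (W * (X * Y ^ s))) = 2 * ε^2 * Y / W := by
      rw [pow_succ]; field_simp
    rw [h7, h2] at h6
    rw [h4] at h3
    have h8 := h6.trans h3
    rw [div_le_div_iff₀ hW hY0] at h8
    nlinarith
  -- products `w a * δ b`
  have hprod : ∀ s a b : ℕ, a ≤ 2 → b ≤ 2 → |(w (s+a) : ℝ) * δ (s+b)| ≤ W * D * Y ^ 2 := by
    intro s a b ha hb
    rw [abs_mul]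
    calc |(w (s+a) : ℝ)| * |δ (s+b)| ≤ W * (X * Y ^ (s+a)) * (D / (X * Y ^ (s+b))) := by
          apply mul_le_mul (hw2 _) (hd2 _) (abs_nonneg _) (by positivity)
      _ = W * D * (Y ^ a / Y ^ b) := by rw [pow_add, pow_add]; field_simp
      _ ≤ W * D * (Y ^ 2 / 1) := by
          gcongr
          · exact hY.le
          · exact one_le_pow₀ hY.le
      _ = _ := by ring
  have hdet : ∀ s, w s * (P (s+1) * T (s+2) - P (s+2) * T (s+1))
      - P s * (w (s+1) * T (s+2) - w (s+2) * T (s+1))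
      + T s * (w (s+1) * P (s+2) - w (s+2) * P (s+1)) = 0 := by
    intro s
    apply int_eq_zero_of_abs_lt_one
    have e1 : ((w s * (P (s+1) * T (s+2) - P (s+2) * T (s+1))
      - P s * (w (s+1) * T (s+2) - w (s+2) * T (s+1))
      + T s * (w (s+1) * P (s+2) - w (s+2) * P (s+1)) : ℤ) : ℝ)
      = (w (s+0) * δ (s+1)) * ρ (s+2) - (w (s+0) * δ (s+2)) * ρ (s+1)
        - (w (s+1) * δ (s+0)) * ρ (s+2) + (w (s+2) * δ (s+0)) * ρ (s+1)
        + (w (s+1) * δ (s+2)) * ρ s - (w (s+2) * δ (s+1)) * ρ s := by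
      simp only [hδ, hρ, add_zero]
      push_cast
      ring
    rw [e1]
    have hb : ∀ a b c : ℕ, a ≤ 2 → b ≤ 2 → |((w (s+a) : ℝ) * δ (s+b)) * ρ c| ≤ W * D * Y ^ 2 * τ := by
      intro a b c ha hb
      rw [abs_mul]
      exact mul_le_mul (hprod s a b ha hb) (ht c) (abs_nonneg _) (by positivity)
    have b1 := abs_le.1 (hb 0 1 (s+2) (by norm_num) (by norm_num))
    have b2 := abs_le.1 (hb 0 2 (s+1) (by norm_num) (by norm_num))
    have b3 := abs_le.1 (hb 1 0 (s+2) (by norm_num) (by norm_num))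
    have b4 := abs_le.1 (hb 2 0 (s+1) (by norm_num) (by norm_num))
    have b5 := abs_le.1 (hb 1 2 s (by norm_num) (by norm_num))
    have b6 := abs_le.1 (hb 2 1 s (by norm_num) (by norm_num))
    rw [abs_lt]
    constructor <;> nlinarith
  have hpl := plane w P T hdet hm
  set a := P 0 * T 1 - P 1 * T 0 with ha
  set b := T 0 * w 1 - T 1 * w 0 with hb
  set c := w 0 * P 1 - w 1 * P 0 with hc
  have hc0 : c ≠ 0 := hm 0
  have hrel : (a : ℝ) + b * α + c * θ = 0 := by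
    by_contra hne
    have hpos : 0 < |(a : ℝ) + b * α + c * θ| := abs_pos.2 hne
    have hbd : ∀ s, |(a : ℝ) + b * α + c * θ| * (ε * (X * Y ^ s)) ≤ |(b:ℝ)| * (D / X) + |(c:ℝ)| * τ := by
      intro s
      have h1 : ((a : ℝ) + b * α + c * θ) * w s = b * δ s + c * ρ s := by
        have h2 : ((a * w s + b * P s + c * T s : ℤ) : ℝ) = 0 := by rw [hpl s]; simp
        push_cast at h2
        simp only [hδ, hρ]
        linear_combination h2
      calc |(a : ℝ) + b * α + c * θ| * (ε * (X * Y ^ s)) ≤ |(a : ℝ) + b * α + c * θ| * |(w s:ℝ)| := by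
            gcongr; exact hw1 s
        _ = |b * δ s + c * ρ s| := by rw [← abs_mul, h1]
        _ ≤ |b * δ s| + |c * ρ s| := abs_add_le _ _
        _ = |(b:ℝ)| * |δ s| + |(c:ℝ)| * |ρ s| := by rw [abs_mul, abs_mul]
        _ ≤ |(b:ℝ)| * (D / X) + |(c:ℝ)| * τ := by
            gcongr
            · refine (hd2 s).trans ?_
              gcongr
              have : 1 ≤ Y ^ s := one_le_pow₀ hY.le
              nlinarith
            · exact ht s
    obtain ⟨s, hs⟩ := pow_unbounded_of_one_lt ((|(b:ℝ)| * (D / X) + |(c:ℝ)| * τ) /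
      (|(a : ℝ) + b * α + c * θ| * (ε * X))) hY
    rw [div_lt_iff₀ (by positivity)] at hs
    have := hbd s
    nlinarith
  refine ⟨c.natAbs, ?_, ?_, ?_⟩
  · exact Int.natAbs_pos.2 hc0
  · have e1 : ((c.natAbs : ℕ) : ℝ) = |(c : ℝ)| := by
      rw [Nat.cast_natAbs]; push_cast; rfl
    rw [e1]
    have e2 : (c : ℝ) = w 1 * δ 0 - w 0 * δ 1 := by
      simp only [hc, hδ]; push_cast; ring
    rw [e2]
    have h1 : |(w 1 : ℝ) * δ 0| ≤ W * D * Y := by
      rw [abs_mul]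
      calc |(w 1 : ℝ)| * |δ 0| ≤ W * (X * Y ^ 1) * (D / (X * Y ^ 0)) := by
            apply mul_le_mul (hw2 _) (hd2 _) (abs_nonneg _) (by positivity)
        _ = W * D * Y := by field_simp; try ring
    have h2 : |(w 0 : ℝ) * δ 1| ≤ W * D * Y := by
      rw [abs_mul]
      calc |(w 0 : ℝ)| * |δ 1| ≤ W * (X * Y ^ 0) * (D / (X * Y ^ 1)) := by
            apply mul_le_mul (hw2 _) (hd2 _) (abs_nonneg _) (by positivity)
        _ = W * D * (1 / Y) := by field_simp; try ring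
        _ ≤ W * D * Y := by
            gcongr
            rw [div_le_iff₀ hY0]; nlinarith
    calc |(w 1 : ℝ) * δ 0 - w 0 * δ 1| ≤ |(w 1 : ℝ) * δ 0| + |(w 0:ℝ) * δ 1| := abs_sub _ _
      _ ≤ _ := by linarith
  · rcases Int.natAbs_eq c with h | h
    · refine ⟨-a, -b, ?_⟩
      have e1 : ((c.natAbs : ℕ) : ℝ) = (c : ℝ) := by
        conv_rhs => rw [h]
        simp
      rw [e1]; push_cast; linear_combination hrel
    · refine ⟨a, b, ?_⟩
      have e1 : ((c.natAbs : ℕ) : ℝ) = -(c : ℝ) := by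
        conv_rhs => rw [h]
        simp
      rw [e1]; linear_combination -hrel

end Pool.Agent.TH869.LPS
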