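import Pool.Agent.H332R2.Lit.Glas

set_option autoImplicit false

/-!
# A nonnegative trigonometric polynomial which is at least one off an arc
-/

namespace Pool.Agent.TH869.LPS

open Finset Pool.Agent.H332R2.Lit

/-- number of representations of `h` as a difference of numbers less than `M` -/
noncomputable def nr (M : ℕ) (h : ℤ) : ℕ :=
  ((range M ×ˢ range M).filter (fun u : ℕ × ℕ => (u.1 : ℤ) - u.2 = h)).card

lemma sq_exp (M : ℕ) (t : ℝ) : ((‖∑ a ∈ range M, e (a * t)‖ ^ 2 : ℝ) : ℂ) =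
    ∑ h ∈ Ioo (-(M:ℤ)) M, (nr M h : ℂ) * e (h * t) := by
  rw [normSq_sum, ← Finset.sum_product']
  have hmap : ∀ u ∈ range M ×ˢ range M, (u.1 : ℤ) - u.2 ∈ Ioo (-(M:ℤ)) M := by
    intro u hu
    rw [mem_product, mem_range, mem_range] at hu
    rw [mem_Ioo]; omega
  rw [← sum_fiberwise_of_maps_to hmap]
  refine sum_congr rfl fun h _ => ?_
  have h1 : ∀ u ∈ (range M ×ˢ range M).filter (fun u : ℕ × ℕ => (u.1 : ℤ) - u.2 = h),
      e ((u.1:ℝ) * t - u.2 * t) = e (h * t) := by
    intro u hu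
    rw [mem_filter] at hu
    rw [← hu.2]
    congr 1; push_cast; ring
  rw [sum_congr rfl h1, sum_const, nsmul_eq_mul]
  rfl

lemma nr_zero (M : ℕ) : nr M 0 = M := by
  unfold nr
  have : (range M ×ˢ range M).filter (fun u : ℕ × ℕ => (u.1 : ℤ) - u.2 = 0) =
      (range M).image (fun a => (a, a)) := by
    ext u
    simp only [mem_filter, mem_product, mem_range, mem_image]
    constructor
    · rintro ⟨⟨h1, h2⟩, h3⟩
      refine ⟨u.1, h1, ?_⟩
      ext
      · rfl
      · simp only; omega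
    · rintro ⟨a, ha, rfl⟩
      simp [ha]
  rw [this, card_image_of_injective _ (fun a b h => by simpa using h), card_range]

lemma nr_sum (M : ℕ) : ∑ h ∈ Ioo (-(M:ℤ)) M, nr M h = M ^ 2 := by
  have hmap : ∀ u ∈ range M ×ˢ range M, (u.1 : ℤ) - u.2 ∈ Ioo (-(M:ℤ)) M := by
    intro u hu
    rw [mem_product, mem_range, mem_range] at hu
    rw [mem_Ioo]; omega
  have := card_eq_sum_card_fiberwise (s := range M ×ˢ range M)
    (f := fun u : ℕ × ℕ => (u.1 : ℤ) - u.2) (t := Ioo (-(M:ℤ)) M) (by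
      intro u hu
      exact hmap u (by exact_mod_cast hu))
  rw [card_product, card_range] at this
  unfold nr
  rw [← this]; ring

/-- orthogonality -/
lemma orth (M : ℕ) (hM : 0 < M) (t : ℝ) :
    ∑ j ∈ range M, ‖∑ a ∈ range M, e (a * (t - j / M))‖ ^ 2 = (M:ℝ) ^ 2 := by
  have hMr : (0:ℝ) < M := by exact_mod_cast hM
  have h1 : ((∑ j ∈ range M, ‖∑ a ∈ range M, e (a * (t - j / M))‖ ^ 2 : ℝ) : ℂ) = (M:ℂ)^2 := by
    push_cast
    have h2 : ∀ j ∈ range M, ((‖∑ a ∈ range M, e (a * (t - j / M))‖ : ℝ) : ℂ) ^ 2 =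
        ∑ a ∈ range M, ∑ b ∈ range M, e (((a:ℝ) - b) * t) * e ((j:ℝ) * (-((a:ℝ) - b) / M)) := by
      intro j _
      rw [← Complex.ofReal_pow, normSq_sum]
      refine sum_congr rfl fun a _ => sum_congr rfl fun b _ => ?_
      rw [← e_add]; congr 1; ring
    rw [sum_congr rfl h2, sum_comm]
    have h3 : ∀ a ∈ range M, ∑ j ∈ range M, ∑ b ∈ range M,
        e (((a:ℝ) - b) * t) * e ((j:ℝ) * (-((a:ℝ) - b) / M)) = M := by
      intro a ha
      rw [sum_comm]
      rw [sum_eq_single_of_mem a ha]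
      · simp [e_zero]
      · intro b hb hba
        rw [← mul_sum]
        have h4 : (∑ j ∈ range M, e ((j:ℝ) * (-((a:ℝ) - b) / M))) = 0 := by
          have h5 : (∑ j ∈ range M, e ((j:ℝ) * (-((a:ℝ) - b) / M))) *
              (1 - e (-((a:ℝ) - b) / M)) = 0 := by
            have h6 := geom_sum_mul_neg (e (-((a:ℝ) - b) / M)) M
            have h7 : e (-((a:ℝ) - b) / M) ^ M = 1 := by
              rw [← e_nat_mul]
              have : (M:ℝ) * (-((a:ℝ) - b) / M) = ((b:ℤ) - (a:ℤ) : ℤ) := by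
                field_simp; push_cast; ring
              rw [this]
              unfold e
              have h8 : (2 * (Real.pi:ℂ) * ((((b:ℤ) - (a:ℤ) : ℤ) : ℝ) : ℂ) * Complex.I) =
                (((b:ℤ) - (a:ℤ) : ℤ) : ℂ) * (2 * Real.pi * Complex.I) := by push_cast; ring
              rw [h8]
              exact Complex.exp_int_mul_two_pi_mul_I _
            rw [h7, sub_self] at h6
            rw [← h6]
            congr 1
            exact sum_congr rfl fun j _ => e_nat_mul j _
          rcases mul_eq_zero.1 h5 with h | h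
          · exact h
          · exfalso
            have h8 := norm_one_sub_e (-((a:ℝ) - b) / M)
            rw [h, norm_zero] at h8
            have h9 : |(-((a:ℝ) - b) / M) - round (-((a:ℝ) - b) / M)| = 0 :=
              le_antisymm (by linarith) (abs_nonneg _)
            rw [abs_eq_zero, sub_eq_zero, div_eq_iff hMr.ne'] at h9
            set r := round (-((a:ℝ) - b) / M) with hr
            have h10 : (b:ℤ) - a = r * M := by
              have : (((b:ℤ) - a : ℤ) : ℝ) = ((r * M : ℤ) : ℝ) := by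
                push_cast; linarith
              exact_mod_cast this
            have ha' := mem_range.1 ha
            have hb' := mem_range.1 hb
            have h11 : r = 0 := by
              by_contra hr0
              rcases lt_or_gt_of_ne hr0 with h12 | h12
              · have : r * M ≤ -1 * M := by
                  apply mul_le_mul_of_nonneg_right _ (by omega)
                  omega
                omega
              · have : 1 * M ≤ r * M := by
                  apply mul_le_mul_of_nonneg_right _ (by omega)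
                  omega
                omega
            rw [h11] at h10
            omega
        rw [h4, mul_zero]
    rw [sum_congr rfl h3, sum_const, card_range, nsmul_eq_mul]
    ring
  exact_mod_cast h1

/-- A nonnegative trigonometric polynomial with mean `1 - s`, at least `1` off the arc. -/
theorem exists_majorant (η : ℝ) (hη : 0 < η) (hη1 : η ≤ 1) (M : ℕ) (hM : 2 ≤ η ^ 2 * M) :
    ∃ (f : ℝ → ℝ) (c : ℤ → ℂ) (s : ℝ), (∀ t, 0 ≤ f t) ∧
      (∀ t : ℝ, (∀ n : ℤ, η ≤ |t - n|) → 1 ≤ f t) ∧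
      (∀ t, (f t : ℂ) = ∑ h ∈ Ioo (-(M:ℤ)) M, c h * e (h * t)) ∧
      c 0 = ((1 - s : ℝ) : ℂ) ∧ η / 4 ≤ s ∧ s ≤ 1 / 2 ∧
      ∑ h ∈ Ioo (-(M:ℤ)) M, ‖c h‖ ≤ 2 + M := by
  have hM2 : (2:ℝ) ≤ M := by
    have : η ^ 2 ≤ 1 := by nlinarith
    have hM0 : (0:ℝ) ≤ M := Nat.cast_nonneg _
    nlinarith
  have hMr : (0:ℝ) < M := by linarith
  have hMpos : 0 < M := by exact_mod_cast hMr
  set J := ⌊η * M / 2⌋₊ + 1 with hJ
  have hJ1 : ((J - 1 : ℕ) : ℝ) ≤ η * M / 2 := by
    rw [hJ, Nat.add_sub_cancel]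
    exact Nat.floor_le (by positivity)
  have hJ2 : η * M / 2 < J := by
    rw [hJ]; push_cast
    exact Nat.lt_floor_add_one _
  have hJM : J ≤ M := by
    have h1 : (J:ℝ) = (((J - 1 : ℕ) : ℝ)) + 1 := by
      have : J = (J - 1) + 1 := by omega
      exact_mod_cast this
    have : (J:ℝ) ≤ M := by
      rw [h1]
      nlinarith
    exact_mod_cast this
  have hJMr : (J:ℝ) ≤ M := by exact_mod_cast hJM
  set κ : ℝ := J / (2 * M) with hκ
  have hκ2 : κ ≤ 1 / 2 := by
    rw [hκ, div_le_iff₀ (by positivity)]; linarith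
  have hκ0 : 0 ≤ κ := by positivity
  set K : ℝ → ℝ := fun t => (∑ j ∈ range J, ‖∑ a ∈ range M, e (a * (t - j / M))‖ ^ 2) / M ^ 2 with hK
  have hK1 : ∀ t, K t ≤ 1 := by
    intro t
    simp only [hK]
    rw [div_le_one (by positivity), ← orth M hMpos t]
    apply sum_le_sum_of_subset_of_nonneg
    · exact range_subset_range.2 hJM
    · intros; positivity
  have hKsmall : ∀ t : ℝ, (∀ n : ℤ, η ≤ |t - n|) → K t ≤ κ := by
    intro t ht
    simp only [hK]
    rw [div_le_iff₀ (by positivity)]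
    have h1 : ∀ j ∈ range J, ‖∑ a ∈ range M, e (a * (t - j / M))‖ ^ 2 ≤ 1 / η ^ 2 := by
      intro j hj
      have hj' : (j:ℝ) ≤ ((J - 1 : ℕ) : ℝ) := by
        have := mem_range.1 hj
        exact_mod_cast (by omega : j ≤ J - 1)
      have hj2 : (j:ℝ) / M ≤ η / 2 := by
        rw [div_le_iff₀ hMr]
        linarith
      have hj0 : (0:ℝ) ≤ (j:ℝ) / M := by positivity
      have h2 : η / 2 ≤ |(t - j / M) - round (t - j / M)| := by
        have h3 := ht (round (t - j / M))
        have h4 : t - round (t - j / M) = ((t - j / M) - round (t - j / M)) + j / M := by ring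
        rw [h4] at h3
        have h5 := abs_add_le ((t - j / M) - round (t - j / M)) ((j:ℝ) / M)
        rw [abs_of_nonneg hj0] at h5
        linarith
      have h6 := norm_geom_le _ _ (by positivity) h2 M
      have h7 : (1:ℝ) / (2 * (η / 2)) = 1 / η := by congr 1; ring
      rw [h7] at h6
      calc _ ≤ (1 / η) ^ 2 := by gcongr
        _ = _ := by rw [div_pow, one_pow]
    refine (sum_le_sum h1).trans ?_
    rw [sum_const, card_range, nsmul_eq_mul, hκ]
    have h8 : 1 / η ^ 2 ≤ M / 2 := by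
      rw [div_le_div_iff₀ (by positivity) (by norm_num)]
      linarith
    calc (J:ℝ) * (1 / η ^ 2) ≤ J * (M / 2) := by gcongr
      _ = _ := by field_simp
  set E : ℤ → ℂ := fun h => ∑ j ∈ range J, e (-(h * (j / M))) with hE
  have hEn : ∀ h, ‖E h‖ ≤ J := by
    intro h
    refine (norm_sum_le _ _).trans ?_
    rw [sum_congr rfl fun j _ => norm_e _]
    simp
  set c : ℤ → ℂ := fun h => (if h = 0 then ((1 + κ : ℝ) : ℂ) else 0) - (nr M h : ℂ) * E h / M ^ 2
    with hc
  have hmem0 : (0:ℤ) ∈ Ioo (-(M:ℤ)) M := by rw [mem_Ioo]; omega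
  refine ⟨fun t => 1 + κ - K t, c, κ, ?_, ?_, ?_, ?_, ?_, hκ2, ?_⟩
  · intro t; have := hK1 t; simp only; linarith
  · intro t ht; have := hKsmall t ht; simp only; linarith
  · intro t
    have h1 : ((K t : ℝ) : ℂ) = ∑ h ∈ Ioo (-(M:ℤ)) M, (nr M h : ℂ) * E h / M ^ 2 * e (h * t) := by
      have h2 : ((K t : ℝ) : ℂ) = (∑ j ∈ range J, ((‖∑ a ∈ range M, e (a * (t - j / M))‖ ^ 2 : ℝ) : ℂ))
          / M ^ 2 := by
        simp only [hK]; push_cast; rfl
      rw [h2, sum_congr rfl fun (j : ℕ) _ => sq_exp M (t - j / M), sum_comm, sum_div]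
      refine sum_congr rfl fun h _ => ?_
      simp only [hE]
      rw [mul_sum, sum_div, sum_div, sum_mul]
      refine sum_congr rfl fun j _ => ?_
      have h3 : e ((h:ℝ) * (t - j / M)) = e (-(h * (j / M))) * e (h * t) := by
        rw [← e_add]; congr 1; ring
      rw [h3]; ring
    have h4 : ∑ h ∈ Ioo (-(M:ℤ)) M, (if h = 0 then ((1 + κ : ℝ) : ℂ) else 0) * e (h * t) =
        ((1 + κ : ℝ) : ℂ) := by
      rw [sum_eq_single_of_mem 0 hmem0]
      · simp [e_zero]
      · intro b _ hb; rw [if_neg hb, zero_mul]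
    simp only [hc, sub_mul]
    rw [sum_sub_distrib, h4, ← h1]
    push_cast; ring
  · simp only [hc, if_true, hE]
    rw [nr_zero]
    have hMc : (M:ℂ) ≠ 0 := by exact_mod_cast hMpos.ne'
    simp only [Int.cast_zero, zero_mul, neg_zero, e_zero, sum_const, card_range, nsmul_eq_mul,
      mul_one, hκ]
    push_cast
    field_simp
    ring
  · rw [hκ, le_div_iff₀ (by positivity)]
    linarith
  · have h1 : ∀ h ∈ Ioo (-(M:ℤ)) M, ‖c h‖ ≤ (if h = 0 then 1 + κ else 0) + nr M h * (J / M ^ 2) := by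
      intro h _
      simp only [hc]
      refine (norm_sub_le _ _).trans (add_le_add ?_ ?_)
      · split_ifs
        · rw [Complex.norm_real, Real.norm_of_nonneg (by linarith)]
        · simp
      · rw [norm_div, norm_mul, norm_pow, Complex.norm_natCast, Complex.norm_natCast]
        calc (nr M h : ℝ) * ‖E h‖ / M ^ 2 ≤ nr M h * J / M ^ 2 := by
              gcongr; exact hEn h
          _ = _ := by ring
    refine (sum_le_sum h1).trans ?_
    rw [sum_add_distrib, ← sum_mul]
    have h2 : ∑ h ∈ Ioo (-(M:ℤ)) M, (if h = 0 then 1 + κ else (0:ℝ)) = 1 + κ := by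
      rw [sum_ite_eq' (Ioo (-(M:ℤ)) M) (0:ℤ) (fun _ => 1 + κ), if_pos hmem0]
    have h3 : ∑ h ∈ Ioo (-(M:ℤ)) M, (nr M h : ℝ) = M ^ 2 := by exact_mod_cast nr_sum M
    rw [h2, h3]
    have h4 : (M:ℝ) ^ 2 * (J / M ^ 2) = J := by field_simp
    rw [h4]; linarith

end Pool.Agent.TH869.LPS
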