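import Pool.Agent.TH869.LPS.Fin

set_option autoImplicit false

/-!
# Power saving: all nonconstant coefficients
-/

namespace Pool.Agent.TH869.LPS

open Finset Polynomial Pool.Agent.H639R3.LP

lemma exists_root (n B : ℕ) (hB : 1 ≤ B) :
    ∃ T : ℕ, 1 ≤ T ∧ T ^ n ≤ B ∧ (n ≠ 0 → B < (2 * T) ^ n) := by
  classical
  set T := Nat.findGreatest (fun t => t ^ n ≤ B) B with hT
  have h1 : 1 ≤ T := Nat.le_findGreatest (P := fun t => t ^ n ≤ B) hB (by simpa using hB)
  have h2 : T ^ n ≤ B := Nat.findGreatest_spec (P := fun t => t ^ n ≤ B) (m := 1) hB (by simpa using hB)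
  refine ⟨T, h1, h2, fun hn => ?_⟩
  by_contra hcon
  push Not at hcon
  have h3 : (T+1) ^ n ≤ B := (Nat.pow_le_pow_left (by omega) n).trans hcon
  have h4 : T + 1 ≤ B := (Nat.le_self_pow hn _).trans h3
  have := Nat.le_findGreatest (P := fun t => t ^ n ≤ B) h4 h3
  omega

lemma root_decay (n T B : ℕ) (hn : n ≠ 0) (hT : 1 ≤ T) (hB : 1 ≤ B) (hTB : B < (2 * T) ^ n) (y : ℝ)
    (hy0 : 0 ≤ y) (hy1 : y ≤ 1) : (T:ℝ) ^ (-y) ≤ 2 * (B:ℝ) ^ (-(y / n)) := by
  have hTr : (0:ℝ) < T := by exact_mod_cast hT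
  have hBr : (0:ℝ) < B := by exact_mod_cast hB
  have hnr : (0:ℝ) < n := by exact_mod_cast Nat.pos_of_ne_zero hn
  have h1 : (B:ℝ) ^ (y / n) ≤ 2 * (T:ℝ) ^ y := by
    calc (B:ℝ) ^ (y / n) ≤ ((2 * (T:ℝ)) ^ n) ^ (y / n) := by
          apply Real.rpow_le_rpow hBr.le _ (by positivity)
          exact_mod_cast hTB.le
      _ = (2 * (T:ℝ)) ^ y := by
          rw [← Real.rpow_natCast, ← Real.rpow_mul (by positivity)]
          congr 1; field_simp
      _ = 2 ^ y * (T:ℝ) ^ y := Real.mul_rpow (by norm_num) hTr.le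
      _ ≤ 2 ^ (1:ℝ) * (T:ℝ) ^ y := by
          gcongr
          norm_num
      _ = _ := by rw [Real.rpow_one]
  rw [Real.rpow_neg hTr.le, Real.rpow_neg hBr.le]
  have h2 : 0 < (T:ℝ) ^ y := Real.rpow_pos_of_pos hTr _
  have h3 : 0 < (B:ℝ) ^ (y / n) := Real.rpow_pos_of_pos hBr _
  rw [← one_div, ← div_eq_mul_inv, div_le_div_iff₀ h2 h3]
  linarith

lemma decay_mono (B : ℝ) (hB : 1 ≤ B) (y z : ℝ) (h : z ≤ y) : B ^ (-y) ≤ B ^ (-z) :=
  Real.rpow_le_rpow_of_exponent_le hB (by linarith)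

/-- The induction on the degree. -/
theorem gen (D : ℕ) : ∃ (A : ℕ) (C : ℝ), 1 ≤ A ∧ 0 < C ∧ ∀ (ε α : ℝ), 0 < ε → ε ≤ 1/2 → ∀ q₀ : ℕ,
    (∀ q : ℕ, q₀ ≤ q → ∀ p : ℤ, 2 * ε ≤ (q:ℝ) * |q * α - p|) →
    ∀ P : ℝ[X], P.natDegree ≤ D → ∀ N B : ℕ, 1 ≤ B → B ≤ N →
    (∀ b : ℕ, 1 ≤ b → b ≤ B → ∃ j, 1 ≤ j ∧ (b:ℝ) * P.coeff j ∉ Lat α) →
    ∀ E : Finset ℕ, E ⊆ range N → (∀ l ∈ E, Bad ε α (P.eval (l:ℝ))) →
    (E.card : ℝ) ≤ C / ε * N * (B:ℝ) ^ (-(ε / (A * Real.log (1/ε)))) := by
  classical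
  induction D with
  | zero =>
    refine ⟨1, 1, le_rfl, one_pos, ?_⟩
    intro ε α _ _ q₀ _ P hP N B hB _ hj
    obtain ⟨j, h1, h2⟩ := hj 1 le_rfl hB
    exfalso
    apply h2
    rw [coeff_eq_zero_of_natDegree_lt (by omega), mul_zero]
    exact (Lat α).zero_mem
  | succ D ih =>
    obtain ⟨A₁, C₁, hA₁, hC₁, h₁⟩ := ih
    obtain ⟨A₂, hA₂, h₂⟩ := core D
    refine ⟨(D+2) * (4 * A₁ + A₂), 8 + 8 * C₁, ?_, by positivity, ?_⟩
    · have : 0 < (D+2) * (4 * A₁ + A₂) := by
        have : 0 < 4 * A₁ + A₂ := by omega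
        positivity
      omega
    intro ε α hε hε2 q₀ hα P hP N B hB hBN hj E hE hbad
    have hlog := log_pos_of ε hε hε2
    set lg := Real.log (1/ε) with hlg
    have hlg0 : 0 < lg := by linarith
    have hA₁r : (1:ℝ) ≤ A₁ := by exact_mod_cast hA₁
    have hA₂r : (1:ℝ) ≤ A₂ := by exact_mod_cast hA₂
    have hDr : (0:ℝ) ≤ D := Nat.cast_nonneg _
    have hBr : (1:ℝ) ≤ B := by exact_mod_cast hB
    have hNr : (0:ℝ) < N := by
      have : 0 < N := by omega
      exact_mod_cast this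
    obtain ⟨T, hT1, hT2, hT3⟩ := exists_root (D+2) B hB
    have hT3' := hT3 (by omega)
    have hTr : (1:ℝ) ≤ T := by exact_mod_cast hT1
    have hTB : T ≤ B := (Nat.le_self_pow (by omega) T).trans hT2
    set z : ℝ := ε / ((((D+2) * (4 * A₁ + A₂) : ℕ) : ℝ) * lg) with hz
    have hzr : z = ε / (((D:ℝ)+2) * (4 * A₁ + A₂) * lg) := by rw [hz]; push_cast; rfl
    by_cases h0 : ∀ b : ℕ, 1 ≤ b → b ≤ T → ∀ u v : ℤ, (b:ℝ) * P.coeff (D+1) ≠ u + v * α
    · have h3 := h₂ ε α hε hε2 q₀ hα P hP N T hT1 (hTB.trans hBN) h0 E hE hbad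
      set y : ℝ := ε / (A₂ * lg) with hy
      have hy0 : 0 ≤ y := by positivity
      have hy1 : y ≤ 1 := by
        rw [hy, div_le_one (by positivity)]
        nlinarith
      have h4 := root_decay (D+2) T B (by omega) hT1 hB hT3' y hy0 hy1
      have h5 : z ≤ y / ((D+2 : ℕ) : ℝ) := by
        rw [hzr, hy, div_div]
        apply div_le_div_of_nonneg_left hε.le (by positivity)
        push_cast
        have : (A₂:ℝ) ≤ 4 * A₁ + A₂ := by linarith
        calc (A₂:ℝ) * lg * (D+2) = (D+2) * A₂ * lg := by ring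
          _ ≤ (D+2) * (4 * A₁ + A₂) * lg := by gcongr
      have h6 := decay_mono B hBr _ _ h5
      calc (E.card : ℝ) ≤ 4 / ε * N * (T:ℝ) ^ (-y) := h3
        _ ≤ 4 / ε * N * (2 * (B:ℝ) ^ (-z)) := by
            gcongr
            exact h4.trans (by gcongr)
        _ = 8 / ε * N * (B:ℝ) ^ (-z) := by ring
        _ ≤ (8 + 8 * C₁) / ε * N * (B:ℝ) ^ (-z) := by
            gcongr
            linarith
    · push Not at h0
      obtain ⟨b₂, hb1, hbT, u, v, huv⟩ := h0
      have hL : (b₂:ℝ) * P.coeff (D+1) ∈ Lat α := ⟨v, u, by rw [huv]; ring⟩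
      have hb₂ : 0 < b₂ := hb1
      set N' : ℕ := N / b₂ + 1 with hN'
      have hTN : T * b₂ ≤ N := by
        calc T * b₂ ≤ T * T := Nat.mul_le_mul_left _ hbT
          _ = T ^ 2 := by ring
          _ ≤ T ^ (D+2) := Nat.pow_le_pow_right hT1 (by omega)
          _ ≤ N := hT2.trans hBN
      have hTN' : T ≤ N' := by
        have : T ≤ N / b₂ := by rwa [Nat.le_div_iff_mul_le hb₂]
        omega
      let TT : ℕ → Finset ℕ := fun s => (range N').filter (fun m => b₂ * m + s ∈ E)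
      set y : ℝ := ε / (4 * A₁ * lg) with hy
      have hy0 : 0 ≤ y := by positivity
      have hy1 : y ≤ 1 := by
        rw [hy, div_le_one (by positivity)]
        nlinarith
      have hTT : ∀ s, ((TT s).card : ℝ) ≤ C₁ / (ε/2) * N' * (T:ℝ) ^ (-y) := by
        intro s
        have h3 := h₁ (ε/2) α (by positivity) (by linarith) q₀
          (fun q hq p => le_trans (by linarith) (hα q hq p)) (Qs D P b₂ s) (Qs_degree D P hP b₂ s)
          N' T hT1 hTN' (by
            intro b hb hbT'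
            by_contra hcon
            push Not at hcon
            obtain ⟨j, hj1, hj2⟩ := hj (b * b₂ ^ (D+1)) (by
              have : 0 < b * b₂ ^ (D+1) := by positivity
              omega) (by
              calc b * b₂ ^ (D+1) ≤ T * T ^ (D+1) := by gcongr
                _ = T ^ (D+2) := by ring
                _ ≤ B := hT2)
            exact hj2 (Qs_coeff D P hP b₂ s b hb₂ hL hcon j hj1))
          (TT s) (Finset.filter_subset _ _) (by
            intro m hm
            have hm2 := (Finset.mem_filter.1 hm).2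
            obtain ⟨y, hy, he⟩ := Qs_eval D P b₂ s m hL
            obtain ⟨V, W, hVW⟩ := hy
            have := hbad _ hm2
            rw [he] at this
            exact bad_shift hε V W hVW this)
        refine h3.trans ?_
        gcongr
        rw [hy]
        have hlog2 : Real.log (1/(ε/2)) ≤ 2 * lg := by
          have e1 : 1/(ε/2) = 2 * (1/ε) := by field_simp
          rw [e1, Real.log_mul (by norm_num) (by positivity)]
          have : Real.log 2 ≤ lg := by
            apply Real.log_le_log (by norm_num)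
            rw [le_div_iff₀ hε]; linarith
          linarith
        have hlog3 : 0 < Real.log (1/(ε/2)) := by
          apply Real.log_pos
          rw [lt_div_iff₀ (by positivity)]; linarith
        rw [div_le_div_iff₀ (by positivity) (by positivity)]
        calc ε * (A₁ * Real.log (1/(ε/2))) ≤ ε * (A₁ * (2 * lg)) := by gcongr
          _ = ε / 2 * (4 * A₁ * lg) := by ring
      have hcover : E ⊆ (range b₂).biUnion (fun s => (TT s).image (fun m => b₂ * m + s)) := by
        intro l hlS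
        rw [Finset.mem_biUnion]
        refine ⟨l % b₂, Finset.mem_range.2 (Nat.mod_lt _ hb₂), ?_⟩
        rw [Finset.mem_image]
        refine ⟨l / b₂, ?_, Nat.div_add_mod _ _⟩
        rw [Finset.mem_filter, Finset.mem_range]
        have hlN := Finset.mem_range.1 (hE hlS)
        refine ⟨?_, by rw [Nat.div_add_mod]; exact hlS⟩
        have : l / b₂ ≤ N / b₂ := Nat.div_le_div_right hlN.le
        omega
      have hcard : E.card ≤ ∑ s ∈ range b₂, (TT s).card :=
        (Finset.card_le_card hcover).trans (Finset.card_biUnion_le.trans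
          (Finset.sum_le_sum fun s _ => Finset.card_image_le))
      have hcard' : (E.card : ℝ) ≤ ∑ s ∈ range b₂, ((TT s).card : ℝ) := by exact_mod_cast hcard
      have hsum : ∑ s ∈ range b₂, ((TT s).card : ℝ) ≤ b₂ * (C₁ / (ε/2) * N' * (T:ℝ) ^ (-y)) := by
        calc _ ≤ ∑ _s ∈ range b₂, (C₁ / (ε/2) * N' * (T:ℝ) ^ (-y)) :=
              Finset.sum_le_sum fun s _ => hTT s
          _ = _ := by rw [Finset.sum_const, Finset.card_range, nsmul_eq_mul]
      have hN2 : (b₂:ℝ) * N' ≤ 2 * N := by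
        have e1 : b₂ * N' ≤ N + b₂ := by
          rw [hN', mul_add, mul_one]
          have := Nat.mul_div_le N b₂
          omega
        have e2 : b₂ ≤ N := by nlinarith
        have e3 : b₂ * N' ≤ 2 * N := by omega
        exact_mod_cast e3
      have h4 := root_decay (D+2) T B (by omega) hT1 hB hT3' y hy0 hy1
      have h5 : z ≤ y / ((D+2 : ℕ) : ℝ) := by
        rw [hzr, hy, div_div]
        apply div_le_div_of_nonneg_left hε.le (by positivity)
        push_cast
        have : (4:ℝ) * A₁ ≤ 4 * A₁ + A₂ := by linarith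
        calc (4:ℝ) * A₁ * lg * (D+2) = (D+2) * (4 * A₁) * lg := by ring
          _ ≤ (D+2) * (4 * A₁ + A₂) * lg := by gcongr
      have h6 := decay_mono B hBr _ _ h5
      calc (E.card : ℝ) ≤ b₂ * (C₁ / (ε/2) * N' * (T:ℝ) ^ (-y)) := hcard'.trans hsum
        _ = C₁ / (ε/2) * (b₂ * N') * (T:ℝ) ^ (-y) := by ring
        _ ≤ C₁ / (ε/2) * (2 * N) * (2 * (B:ℝ) ^ (-z)) := by
            gcongr
            exact h4.trans (by gcongr)
        _ = (8 * C₁) / ε * N * (B:ℝ) ^ (-z) := by field_simp; ring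
        _ ≤ (8 + 8 * C₁) / ε * N * (B:ℝ) ^ (-z) := by
            gcongr
            linarith

end Pool.Agent.TH869.LPS
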