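import Pool.Agent.TH869.LPS.Sys
import Pool.Agent.TH869.LPS.Count
import Pool.Agent.TH869.LPS.WeylQ

set_option autoImplicit false

/-!
# Power saving along polynomial sequences: nonresonant leading coefficient
-/

namespace Pool.Agent.TH869.LPS

open Finset Polynomial Pool.Agent.H332R2.Lit

/-- For all large `q` with `q |q α - p| < 1` the number `q x` is `ε`-away from `γ + ℤ`. -/
def Bad (ε α x : ℝ) : Prop := ∃ (γ : ℝ) (Q : ℕ), ∀ q : ℕ, Q ≤ q → ∀ p : ℤ,
  (q:ℝ) * |q * α - p| < 1 → ∀ n : ℤ, ε ≤ |(q * x - γ) - n|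

lemma bad_shift {ε α x y : ℝ} (hε : 0 < ε) (V W : ℤ) (hy : y = V * α + W)
    (h : Bad ε α (x + y)) : Bad (ε / 2) α x := by
  obtain ⟨γ, Q, hQ⟩ := h
  obtain ⟨Q', hQ'⟩ := exists_nat_ge (2 * |(V:ℝ)| / ε)
  refine ⟨γ, Q + Q' + 1, fun q hq p hp n => ?_⟩
  have h1 := hQ q (by omega) p hp (n + V * p + q * W)
  have hq0 : (0:ℝ) < q := by exact_mod_cast (by omega : 0 < q)
  have e1 : ((q:ℝ) * (x + y) - γ) - ((n + V * p + q * W : ℤ) : ℝ) =
      ((q * x - γ) - n) + V * (q * α - p) := by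
    rw [hy]; push_cast; ring
  rw [e1] at h1
  have h2 : |(V:ℝ) * (q * α - p)| ≤ ε / 2 := by
    rw [abs_mul]
    have h3 : |(q:ℝ) * α - p| ≤ 1 / q := by
      rw [le_div_iff₀ hq0]; linarith
    have h4 : 2 * |(V:ℝ)| / ε ≤ q := hQ'.trans (by exact_mod_cast (by omega : Q' ≤ q))
    rw [div_le_iff₀ hε] at h4
    calc |(V:ℝ)| * |(q:ℝ) * α - p| ≤ |(V:ℝ)| * (1 / q) := by gcongr
      _ ≤ ε / 2 := by
        rw [mul_one_div, div_le_div_iff₀ hq0 (by norm_num)]
        linarith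
  have h5 := abs_add_le ((q:ℝ) * x - γ - n) (V * (q * α - p))
  linarith

/-- centres of the cells -/
noncomputable def ctr (G : ℕ) (g : ℕ) : ℝ := (g + 1 / 2) / G

lemma exists_cell (G : ℕ) (hG : 0 < G) (γ : ℝ) :
    ∃ g < G, |Int.fract γ - ctr G g| ≤ 1 / (2 * G) := by
  have hGr : (0:ℝ) < G := by exact_mod_cast hG
  have h0 := Int.fract_nonneg γ
  have h1 := Int.fract_lt_one γ
  refine ⟨⌊Int.fract γ * G⌋₊, ?_, ?_⟩
  · rw [Nat.floor_lt (by positivity)]
    nlinarith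
  · have h2 := Nat.floor_le (by positivity : 0 ≤ Int.fract γ * G)
    have h3 := Nat.lt_floor_add_one (Int.fract γ * G)
    unfold ctr
    rw [abs_le]
    constructor
    · rw [neg_le_sub_iff_le_add, ← sub_le_iff_le_add]
      have : ((⌊Int.fract γ * G⌋₊ : ℝ) + 1/2) / G - 1 / (2 * G) = (⌊Int.fract γ * G⌋₊ : ℝ) / G := by
        field_simp; ring
      rw [this, div_le_iff₀ hGr]
      exact h2
    · rw [sub_le_iff_le_add]
      have : 1 / (2 * (G:ℝ)) + ((⌊Int.fract γ * G⌋₊ : ℝ) + 1/2) / G =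
        ((⌊Int.fract γ * G⌋₊ : ℝ) + 1) / G := by
        field_simp; ring
      rw [this, le_div_iff₀ hGr]
      exact h3.le

/-- The counting theorem with all parameters. -/
theorem param (d : ℕ) : ∃ C : ℕ, 1 ≤ C ∧ ∀ (ε α : ℝ), 0 < ε → ε ≤ 1/2 → ∀ q₀ : ℕ,
    (∀ q : ℕ, q₀ ≤ q → ∀ p : ℤ, 2 * ε ≤ (q:ℝ) * |q * α - p|) →
    ∀ P : ℝ[X], P.natDegree ≤ d+1 → ∀ N B M R I G : ℕ, 1 ≤ I → 1 ≤ N → B ≤ N → 1 ≤ G →
    2 ≤ (ε/2)^2 * M → 12 * (M:ℝ) < ε * R → 1 ≤ ε * G → 4 + 2 * M ≤ R →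
    R ^ ((7 * C + 3) * (I + 1)) ≤ B →
    (∀ b : ℕ, 1 ≤ b → b ≤ B → ∀ u v : ℤ, (b:ℝ) * P.coeff (d+1) ≠ u + v * α) →
    ∀ E : Finset ℕ, E ⊆ range N → (∀ l ∈ E, Bad ε α (P.eval (l:ℝ))) →
    (E.card : ℝ) ≤ G * (2 * (1 - ε / 8) ^ I * N) := by
  obtain ⟨C, hC1, hC⟩ := weylQ d
  refine ⟨C, hC1, ?_⟩
  intro ε α hε hε2 q₀ h1 P hP N B M R I G hI hN hBN hG hM hR hGε hMR hRB hθ E hE hbad
  have hNr : (0:ℝ) < N := by exact_mod_cast hN
  have hMr : (8:ℝ) ≤ M := by
    have h2 : (ε/2)^2 ≤ 1/4 := by nlinarith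
    have h3 : (0:ℝ) ≤ M := Nat.cast_nonneg _
    nlinarith
  have hM1 : 1 ≤ M := by
    have : (1:ℝ) ≤ M := by linarith
    exact_mod_cast this
  set L : ℕ := 2 + M with hL
  set K : ℕ := C * (2 * L) ^ (I * C) with hK
  have hLr : (L:ℝ) = 2 + M := by rw [hL]; push_cast; ring
  have hL0 : (0:ℝ) < L := by rw [hLr]; linarith
  have hR2 : 2 ≤ R := by omega
  have hKR : K ≤ R ^ (C * (I + 1)) := by
    calc K ≤ R ^ C * R ^ (I * C) := by
          rw [hK]
          apply Nat.mul_le_mul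
          · calc C ≤ 2 ^ C := Nat.lt_two_pow_self.le
              _ ≤ R ^ C := Nat.pow_le_pow_left hR2 C
          · apply Nat.pow_le_pow_left
            omega
      _ = _ := by rw [← pow_add]; congr 1; ring
  have hK1 : 1 ≤ K := by
    rw [hK]
    exact Nat.mul_pos (by omega) (Nat.pow_pos (by omega))
  have hKN : K ^ 7 * R ^ (3 * I + 3) ≤ N := by
    calc K ^ 7 * R ^ (3 * I + 3) ≤ (R ^ (C * (I + 1))) ^ 7 * R ^ (3 * I + 3) := by gcongr
      _ = R ^ ((7 * C + 3) * (I + 1)) := by rw [← pow_mul, ← pow_add]; congr 1; ring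
      _ ≤ N := hRB.trans hBN
  have hKB : K ^ 4 * R ^ (2 * I + 2) ≤ B := by
    calc K ^ 4 * R ^ (2 * I + 2) ≤ (R ^ (C * (I + 1))) ^ 4 * R ^ (2 * I + 2) := by gcongr
      _ = R ^ ((4 * C + 2) * (I + 1)) := by rw [← pow_mul, ← pow_add]; congr 1; ring
      _ ≤ R ^ ((7 * C + 3) * (I + 1)) := by
          apply Nat.pow_le_pow_right (by omega)
          apply Nat.mul_le_mul_right
          omega
      _ ≤ B := hRB
  -- the data of the bad elements
  choose! γ Q hQ using hbad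
  set QQ : ℕ := E.sup Q with hQQ
  have hQle : ∀ l ∈ E, Q l ≤ QQ := fun l hl => Finset.le_sup (f := Q) hl
  obtain ⟨X, q, p, hX, hQX, hnice, hw⟩ := dich α (P.coeff (d+1)) ε ((K:ℝ) / N) hε (by linarith) q₀
    h1 M R I K hM1 hK1 hI hR (by positivity)
    (by
      rw [← mul_div_assoc, div_le_one hNr]
      have : ((K ^ 7 * R ^ (3 * I + 3) : ℕ) : ℝ) ≤ N := by exact_mod_cast hKN
      push_cast at this
      calc (K:ℝ) ^ 6 * (R:ℝ) ^ (3 * I + 3) * (K:ℝ) = (K:ℝ) ^ 7 * (R:ℝ) ^ (3 * I + 3) := by ring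
        _ ≤ (N:ℝ) := this)
    (fun b hb hb2 => hθ b hb (hb2.trans hKB)) QQ
  have hR1 : (1:ℝ) ≤ R := by exact_mod_cast (by omega : 1 ≤ R)
  obtain ⟨f, c, s, hf0, hf1, hf, hc0, hs1, hs2, hcL⟩ := exists_majorant (ε/2) (by positivity)
    (by linarith) M hM
  have hqQ : ∀ i < I, QQ ≤ q i := by
    intro i hi
    have h2 := hnice.low i hi
    have h3 : X ≤ X * R ^ i := by
      have : (1:ℝ) ≤ R ^ i := one_le_pow₀ hR1
      nlinarith
    have : (QQ:ℝ) ≤ q i := by nlinarith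
    exact_mod_cast this
  have hGr : (0:ℝ) < G := by exact_mod_cast hG
  -- cells
  choose g hg1 hg2 using fun l : ℕ => exists_cell G (by omega) (γ l)
  have hcell : ∀ k : ℕ, ((E.filter (fun l => g l = k)).card : ℝ) ≤ 2 * (1 - ε / 8) ^ I * N := by
    intro k
    set κ : ℝ := (1 / (2 * (L:ℝ))) ^ I with hκ
    have hκ0 : 0 < κ := by positivity
    have hκ1 : κ ≤ 1 := by
      apply pow_le_one₀ (by positivity)
      rw [div_le_one (by positivity)]
      rw [hLr]; linarith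
    have hKκ : (C:ℝ) * (1/κ)^C = K := by
      have h1κ : 1/κ = (2 * (L:ℝ)) ^ I := by rw [hκ, one_div_pow, one_div_one_div]
      rw [h1κ, hK]
      push_cast
      rw [← pow_mul]
    have h2 := count (fun l => P.eval (l:ℝ)) N M c f (κ * N) L (ctr G k) q hM1 hf hf0 (ε/2) hf1
      (by rw [hLr]; exact hcL) hL0.le (by positivity) s (by linarith) hc0 I (by
        intro h hh hne
        set w : ℝ := ∑ i ∈ range I, (h i : ℝ) * q i with hwdef
        have h3 := hC κ hκ0 hκ1 (Polynomial.C w * P) ((natDegree_C_mul_le _ _).trans hP) N hN (by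
          intro m hm1 hm2
          rw [hKκ] at hm2 ⊢
          have h4 := hw h hh hne m hm1 (by exact_mod_cast hm2)
            (round ((m:ℝ) * (Polynomial.C w * P).coeff (d+1)))
          refine h4.le.trans (le_of_eq ?_)
          rw [coeff_C_mul]
          congr 1
          ring)
        have h5 : ∀ l ∈ range N, e (w * (fun l : ℕ => P.eval (l:ℝ)) l) =
            e ((Polynomial.C w * P).eval (l:ℝ)) := by
          intro l _
          rw [eval_mul, eval_C]
        rw [sum_congr rfl h5]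
        exact h3) (E.filter (fun l => g l = k)) ((filter_subset _ _).trans hE) (by
        intro l hl i hi n
        rw [mem_filter] at hl
        have h3 := hQ l hl.1 (q i) ((hQle l hl.1).trans (hqQ i hi)) (p i) (hnice.lt1 i hi)
          (n - ⌊γ l⌋)
        have h4 := hg2 l
        rw [hl.2] at h4
        have h5 : (1:ℝ) / (2 * G) ≤ ε / 2 := by
          rw [div_le_div_iff₀ (by positivity) (by norm_num)]
          linarith
        have h6 : ((q i : ℝ) * P.eval (l:ℝ) - γ l) - ((n - ⌊γ l⌋ : ℤ) : ℝ) =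
            ((q i : ℝ) * P.eval (l:ℝ) - ctr G k - n) - (Int.fract (γ l) - ctr G k) := by
          have := Int.self_sub_floor (γ l)
          push_cast
          linarith
        rw [h6] at h3
        have h7 := abs_sub (((q i : ℝ) * P.eval (l:ℝ) - ctr G k - n)) (Int.fract (γ l) - ctr G k)
        linarith)
    refine h2.trans ?_
    have h3 : (1 - s) ^ I ≤ (1 - ε / 8) ^ I := by
      apply pow_le_pow_left₀ (by linarith)
      linarith
    have h4 : (L:ℝ) ^ I * (κ * N) = (1/2) ^ I * N := by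
      rw [hκ, ← mul_assoc, ← mul_pow]
      congr 2
      field_simp
    have h5 : ((1:ℝ)/2) ^ I ≤ (1 - ε / 8) ^ I := by
      apply pow_le_pow_left₀ (by norm_num)
      linarith
    rw [h4]
    nlinarith
  have hcard : (E.card : ℝ) = ∑ k ∈ range G, ((E.filter (fun l => g l = k)).card : ℝ) := by
    have := card_eq_sum_card_fiberwise (s := E) (f := g) (t := range G) (by
      intro l _
      exact_mod_cast mem_range.2 (hg1 l))
    exact_mod_cast this
  rw [hcard]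
  calc ∑ k ∈ range G, ((E.filter (fun l => g l = k)).card : ℝ)
      ≤ ∑ _k ∈ range G, 2 * (1 - ε / 8) ^ I * (N:ℝ) := sum_le_sum fun k _ => hcell k
    _ = _ := by rw [sum_const, card_range, nsmul_eq_mul]

end Pool.Agent.TH869.LPS
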