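import Pool.Agent.TH869.LPS.Det

set_option autoImplicit false

/-!
# Lacunary systems of denominators, and the dichotomy
-/

namespace Pool.Agent.TH869.LPS

/-- a lacunary system of denominators of good approximations of `α`, at scale `X` -/
structure Nice (α ε X : ℝ) (R I : ℕ) (q : ℕ → ℕ) (p : ℕ → ℤ) : Prop where
  low : ∀ i < I, 2 * ε * (X * R ^ i) ≤ q i
  up : ∀ i < I, (q i : ℝ) ≤ X * R ^ i
  app : ∀ i < I, |q i * α - p i| ≤ 1 / (X * R ^ i)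
  lt1 : ∀ i < I, (q i : ℝ) * |q i * α - p i| < 1

lemma exists_q (α ε : ℝ) (hε : 0 < ε) (q₀ : ℕ)
    (h1 : ∀ q : ℕ, q₀ ≤ q → ∀ p : ℤ, 2 * ε ≤ (q:ℝ) * |q * α - p|) :
    ∃ X₀ : ℕ, 1 ≤ X₀ ∧ ∀ X : ℕ, X₀ ≤ X → ∃ (q : ℕ) (p : ℤ), 2 * ε * X ≤ q ∧ (q:ℝ) ≤ X ∧
      |q * α - p| ≤ 1 / X ∧ (q:ℝ) * |q * α - p| < 1 := by
  obtain ⟨X₁, hX₁⟩ := exists_nat_gt (((q₀:ℝ) + 1)^3 / (2 * ε))
  refine ⟨X₁ + 1, by omega, fun X hX => ?_⟩
  have hX0 : 0 < X := by omega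
  have hXr : (0:ℝ) < X := by exact_mod_cast hX0
  obtain ⟨q, hq0, hqX, hq⟩ := Real.exists_nat_abs_mul_sub_round_le α hX0
  have hqr : (0:ℝ) < q := by exact_mod_cast hq0
  have hqX' : (q:ℝ) ≤ X := by exact_mod_cast hqX
  set p := round ((q:ℝ) * α) with hp
  have hq00 : q₀ + 1 ≤ q ∨ q < q₀ + 1 := by omega
  have hqq : q₀ ≤ q := by
    rcases hq00 with h | h
    · omega
    exfalso
    have h2 := h1 ((q₀+1) * q) (by nlinarith) ((q₀+1) * p)
    have e1 : (((q₀+1) * q : ℕ) : ℝ) * |(((q₀+1) * q : ℕ) : ℝ) * α - (((q₀ + 1) * p : ℤ) : ℝ)|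
        = ((q₀:ℝ)+1)^2 * q * |q * α - p| := by
      push_cast
      have : ((q₀:ℝ) + 1) * q * α - (q₀ + 1) * p = (q₀ + 1) * (q * α - p) := by ring
      rw [this, abs_mul, abs_of_pos (by positivity : (0:ℝ) < (q₀:ℝ) + 1)]
      ring
    rw [e1] at h2
    have h3 : (q:ℝ) ≤ q₀ + 1 := by exact_mod_cast h.le
    have h4 : ((q₀:ℝ)+1)^2 * q * |q * α - p| ≤ ((q₀:ℝ)+1)^2 * (q₀ + 1) * (1 / (X + 1)) := by
      gcongr
    have h5 := h2.trans h4
    have h6 : ((q₀:ℝ) + 1)^3 / (2 * ε) < X := hX₁.trans (by exact_mod_cast hX)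
    rw [div_lt_iff₀ (by positivity)] at h6
    rw [mul_one_div, le_div_iff₀ (by positivity)] at h5
    nlinarith
  have h7 := h1 q hqq p
  refine ⟨q, p, ?_, hqX', ?_, ?_⟩
  · have h8 : (q:ℝ) * |q * α - p| ≤ q * (1 / (X+1)) := by gcongr
    have h9 := h7.trans h8
    rw [mul_one_div, le_div_iff₀ (by positivity)] at h9
    nlinarith
  · refine hq.trans ?_
    gcongr
    linarith
  · calc (q:ℝ) * |q * α - p| ≤ q * (1 / (X+1)) := by gcongr
      _ ≤ X * (1 / (X+1)) := by gcongr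
      _ < 1 := by rw [mul_one_div, div_lt_one (by positivity)]; linarith

lemma exists_nice (α ε : ℝ) (hε : 0 < ε) (q₀ : ℕ)
    (h1 : ∀ q : ℕ, q₀ ≤ q → ∀ p : ℤ, 2 * ε ≤ (q:ℝ) * |q * α - p|) (R I : ℕ) (hR : 1 ≤ R) :
    ∃ X₀ : ℕ, 1 ≤ X₀ ∧ ∀ X : ℕ, X₀ ≤ X → ∃ (q : ℕ → ℕ) (p : ℕ → ℤ), Nice α ε X R I q p := by
  obtain ⟨X₀, hX₀, h⟩ := exists_q α ε hε q₀ h1
  refine ⟨X₀, hX₀, fun X hX => ?_⟩
  have h2 : ∀ i : ℕ, X₀ ≤ X * R ^ i := fun i =>
    hX.trans (Nat.le_mul_of_pos_right X (Nat.pow_pos (by omega)))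
  choose q p h3 h4 h5 h6 using fun i : ℕ => h (X * R ^ i) (h2 i)
  refine ⟨q, p, ?_, ?_, ?_, ?_⟩
  · intro i _; have := h3 i; push_cast at this; exact this
  · intro i _; have := h4 i; push_cast at this; exact this
  · intro i _; have := h5 i; push_cast at this; exact this
  · intro i _; exact h6 i

section sizes

variable {α ε X : ℝ} {R I : ℕ} {q : ℕ → ℕ} {p : ℕ → ℤ} {M : ℕ} {h : ℕ → ℤ}

lemma up_bound (hε : 0 < ε) (hX : 0 < X) (hq : Nice α ε X R I q p) (hM : 1 ≤ M)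
    (hR : (M:ℝ) ≤ ε * R) (hε1 : ε ≤ 1) (hh : ∀ i < I, |(h i : ℝ)| ≤ M - 1) :
    ∀ n ≤ I, |∑ i ∈ Finset.range n, (h i : ℝ) * q i| ≤ ε * (X * R ^ n) := by
  intro n
  induction n with
  | zero => intro _; simp; positivity
  | succ n ih =>
    intro hn
    have h1 := ih (by omega)
    rw [Finset.sum_range_succ]
    have h2 : |(h n : ℝ) * q n| ≤ (M - 1) * (X * R ^ n) := by
      rw [abs_mul, abs_of_nonneg (Nat.cast_nonneg (q n) : (0:ℝ) ≤ q n)]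
      have hM1 : (1:ℝ) ≤ M := by exact_mod_cast hM
      exact mul_le_mul (hh n (by omega)) (hq.up n (by omega)) (Nat.cast_nonneg _) (by linarith)
    have hRp : (0:ℝ) ≤ X * R ^ n := by positivity
    calc |∑ i ∈ Finset.range n, (h i : ℝ) * q i + h n * q n|
        ≤ ε * (X * R ^ n) + (M - 1) * (X * R ^ n) := (abs_add_le _ _).trans (add_le_add h1 h2)
      _ = (ε + M - 1) * (X * R ^ n) := by ring
      _ ≤ (ε * R) * (X * R ^ n) := by gcongr; linarith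
      _ = ε * (X * R ^ (n+1)) := by ring

lemma low_bound (hε : 0 < ε) (hX : 0 < X) (hq : Nice α ε X R I q p) (hM : 1 ≤ M)
    (hR : (M:ℝ) ≤ ε * R) (hε1 : ε ≤ 1) (hh : ∀ i < I, |(h i : ℝ)| ≤ M - 1) :
    ∀ n ≤ I, (∃ i < n, h i ≠ 0) → ε * X ≤ |∑ i ∈ Finset.range n, (h i : ℝ) * q i| := by
  have hR1 : (1:ℝ) ≤ R := by
    have hM1 : (1:ℝ) ≤ M := by exact_mod_cast hM
    nlinarith
  intro n
  induction n with
  | zero => rintro _ ⟨i, hi, _⟩; omega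
  | succ n ih =>
    intro hn hex
    rw [Finset.sum_range_succ]
    by_cases h0 : h n = 0
    · rw [h0]
      simp only [Int.cast_zero, zero_mul, add_zero]
      refine ih (by omega) ?_
      obtain ⟨i, hi, hi0⟩ := hex
      refine ⟨i, ?_, hi0⟩
      rcases Nat.lt_succ_iff_lt_or_eq.1 hi with h2 | h2
      · exact h2
      · exact absurd (h2 ▸ h0) hi0
    · have h1 := up_bound hε hX hq hM hR hε1 hh n (by omega)
      have h2 : 2 * ε * (X * R ^ n) ≤ |(h n : ℝ) * q n| := by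
        rw [abs_mul, abs_of_nonneg (Nat.cast_nonneg (q n) : (0:ℝ) ≤ q n)]
        have h3 : (1:ℝ) ≤ |(h n : ℝ)| := by
          have : 1 ≤ |h n| := Int.one_le_abs h0
          exact_mod_cast this
        calc 2 * ε * (X * R ^ n) ≤ q n := hq.low n (by omega)
          _ = 1 * q n := (one_mul _).symm
          _ ≤ _ := by gcongr
      have h4 : |(h n : ℝ) * q n| ≤ |∑ i ∈ Finset.range n, (h i : ℝ) * q i + h n * q n| +
          |∑ i ∈ Finset.range n, (h i : ℝ) * q i| := by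
        have := abs_sub (∑ i ∈ Finset.range n, (h i : ℝ) * q i + h n * q n)
          (∑ i ∈ Finset.range n, (h i : ℝ) * q i)
        rwa [add_sub_cancel_left] at this
      have h5 : X ≤ X * R ^ n := by
        have : (1:ℝ) ≤ R ^ n := one_le_pow₀ hR1
        nlinarith
      nlinarith

lemma app_bound (hX : 0 < X) (hq : Nice α ε X R I q p) (hM : 1 ≤ M) (hR : (2:ℝ) ≤ R)
    (hh : ∀ i < I, |(h i : ℝ)| ≤ M - 1) :
    ∀ n ≤ I, |∑ i ∈ Finset.range n, (h i : ℝ) * (q i * α - p i)| ≤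
      2 * M / X * (1 - 1 / R ^ n) := by
  intro n
  induction n with
  | zero => intro _; simp
  | succ n ih =>
    intro hn
    have h1 := ih (by omega)
    have hM1 : (1:ℝ) ≤ M := by exact_mod_cast hM
    rw [Finset.sum_range_succ]
    have h2 : |(h n : ℝ) * (q n * α - p n)| ≤ M * (1 / (X * R ^ n)) := by
      rw [abs_mul]
      refine mul_le_mul ((hh n (by omega)).trans (by linarith)) (hq.app n (by omega))
        (abs_nonneg _) (by linarith)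
    have hRp : (0:ℝ) < R ^ n := by positivity
    calc |∑ i ∈ Finset.range n, (h i : ℝ) * (q i * α - p i) + h n * (q n * α - p n)|
        ≤ 2 * M / X * (1 - 1 / R ^ n) + M * (1 / (X * R ^ n)) :=
          (abs_add_le _ _).trans (add_le_add h1 h2)
      _ = 2 * M / X * (1 - (1 / 2) / R ^ n) := by field_simp; ring
      _ ≤ 2 * M / X * (1 - 1 / R ^ (n+1)) := by
          gcongr 2 * M / X * (1 - ?_)
          rw [pow_succ, div_le_div_iff₀ (by positivity) (by positivity)]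
          nlinarith

end sizes

/-- The dichotomy: if `θ` is not in `(1/b) (ℤ + ℤα)` for small `b`, there are nice systems at
arbitrarily large scales all of whose nontrivial combinations `w` keep all `k w θ` away from the
integers. -/
theorem dich (α θ ε τ : ℝ) (hε : 0 < ε) (hε1 : ε ≤ 1) (q₀ : ℕ)
    (h1 : ∀ q : ℕ, q₀ ≤ q → ∀ p : ℤ, 2 * ε ≤ (q:ℝ) * |q * α - p|)
    (M R I K : ℕ) (hM : 1 ≤ M) (hK : 1 ≤ K) (hI : 1 ≤ I) (hR : 12 * (M:ℝ) < ε * R) (hτ : 0 ≤ τ)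
    (c2 : (K:ℝ) ^ 6 * R ^ (3 * I + 3) * τ ≤ 1)
    (hθ : ∀ b : ℕ, 1 ≤ b → b ≤ K ^ 4 * R ^ (2 * I + 2) → ∀ u v : ℤ, (b:ℝ) * θ ≠ u + v * α)
    (Q : ℕ) :
    ∃ (X : ℝ) (q : ℕ → ℕ) (p : ℕ → ℤ), 0 < X ∧ (Q:ℝ) ≤ 2 * ε * X ∧ Nice α ε X R I q p ∧
      ∀ h : ℕ → ℤ, (∀ i < I, |(h i : ℝ)| ≤ M - 1) → (∃ i < I, h i ≠ 0) →
      ∀ k : ℕ, 1 ≤ k → k ≤ K → ∀ t : ℤ,
        τ < |(k:ℝ) * (∑ i ∈ Finset.range I, (h i : ℝ) * q i) * θ - t| := by
  by_contra hcon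
  push Not at hcon
  have hM1 : (1:ℝ) ≤ M := by exact_mod_cast hM
  have hK1 : (1:ℝ) ≤ K := by exact_mod_cast hK
  have hR2 : (12:ℝ) < R := by nlinarith
  have hR12 : 12 * (M:ℝ) < R := by nlinarith
  have hR1 : 1 ≤ R := by
    have : (1:ℝ) ≤ R := by linarith
    exact_mod_cast this
  obtain ⟨X₀, hX₀, hN⟩ := exists_nice α ε hε q₀ h1 R I hR1
  obtain ⟨X₁, hX₁⟩ := exists_nat_ge (((Q:ℝ) + q₀) / ε)
  set Y : ℕ := K ^ 2 * R ^ (I + 1) with hY
  have hYr : (Y:ℝ) = K ^ 2 * R ^ (I+1) := by rw [hY]; push_cast; ring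
  have hRI : (R:ℝ) ≤ R ^ (I+1) := le_self_pow₀ (by linarith) (by omega)
  have hY1 : (1:ℝ) < Y := by
    rw [hYr]
    have : (1:ℝ) ≤ K^2 := one_le_pow₀ hK1
    nlinarith
  have hYpos : 1 ≤ Y := by exact_mod_cast hY1.le
  set X : ℕ := X₀ + X₁ with hX
  have hXpos : 0 < X := by omega
  have hXr : (0:ℝ) < X := by exact_mod_cast hXpos
  have hXQ : (Q:ℝ) + q₀ ≤ ε * X := by
    rw [div_le_iff₀ hε] at hX₁
    have : (X₁:ℝ) ≤ X := by exact_mod_cast (by omega : X₁ ≤ X)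
    nlinarith
  have hXs : ∀ s : ℕ, X ≤ X * Y ^ s := fun s => Nat.le_mul_of_pos_right X (Nat.pow_pos (by omega))
  choose q p hqp using fun s : ℕ => hN (X * Y ^ s) ((by omega : X₀ ≤ X).trans (hXs s))
  have hXsr : ∀ s : ℕ, ((X * Y ^ s : ℕ) : ℝ) = X * (Y:ℝ) ^ s := fun s => by push_cast; ring
  have hXsr' : ∀ s : ℕ, (X:ℝ) ≤ X * (Y:ℝ) ^ s := fun s => by
    rw [← hXsr]; exact_mod_cast hXs s
  have hbad : ∀ s : ℕ, ∃ h : ℕ → ℤ, (∀ i < I, |(h i : ℝ)| ≤ M - 1) ∧ (∃ i < I, h i ≠ 0) ∧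
      ∃ k : ℕ, 1 ≤ k ∧ k ≤ K ∧ ∃ t : ℤ,
        |(k:ℝ) * (∑ i ∈ Finset.range I, (h i : ℝ) * q s i) * θ - t| ≤ τ := by
    intro s
    refine hcon (X * Y ^ s : ℕ) (q s) (p s) ?_ ?_ (hqp s)
    · rw [hXsr]; positivity
    · rw [hXsr]
      have := hXsr' s
      have hq0 : (0:ℝ) ≤ q₀ := Nat.cast_nonneg _
      nlinarith
  choose h hh hne k hk1 hkK t ht using hbad
  have hq0 : (0:ℝ) ≤ q₀ := Nat.cast_nonneg _
  have hQ0 : (0:ℝ) ≤ Q := Nat.cast_nonneg _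
  set w : ℕ → ℤ := fun s => k s * ∑ i ∈ Finset.range I, h s i * q s i with hw
  set P : ℕ → ℤ := fun s => k s * ∑ i ∈ Finset.range I, h s i * p s i with hP
  have hwr : ∀ s, (w s : ℝ) = k s * ∑ i ∈ Finset.range I, (h s i : ℝ) * q s i := fun s => by
    simp only [hw]; push_cast; rfl
  have hPr : ∀ s, (w s : ℝ) * α - P s =
      k s * ∑ i ∈ Finset.range I, (h s i : ℝ) * (q s i * α - p s i) := fun s => by
    rw [hwr]
    simp only [hP]; push_cast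
    rw [mul_assoc, Finset.sum_mul, ← mul_sub, ← Finset.sum_sub_distrib]
    congr 1
    exact Finset.sum_congr rfl fun i _ => by ring
  have hk1r : ∀ s, (1:ℝ) ≤ k s := fun s => by exact_mod_cast hk1 s
  have hkKr : ∀ s, (k s:ℝ) ≤ K := fun s => by exact_mod_cast hkK s
  have hMR : (M:ℝ) ≤ ε * R := by linarith
  have hw1 : ∀ s, ε * (X * (Y:ℝ) ^ s) ≤ |(w s : ℝ)| := by
    intro s
    rw [hwr, abs_mul, abs_of_nonneg (by linarith [hk1r s] : (0:ℝ) ≤ k s)]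
    have h2 := low_bound hε (by rw [hXsr]; positivity) (hqp s) hM hMR hε1 (hh s) I le_rfl (hne s)
    rw [hXsr] at h2
    calc ε * (X * (Y:ℝ) ^ s) ≤ 1 * |∑ i ∈ Finset.range I, (h s i : ℝ) * q s i| := by
          rw [one_mul]; exact h2
      _ ≤ _ := by gcongr; exact hk1r s
  have hw2 : ∀ s, |(w s : ℝ)| ≤ (K * R ^ I) * (X * (Y:ℝ) ^ s) := by
    intro s
    rw [hwr, abs_mul, abs_of_nonneg (by linarith [hk1r s] : (0:ℝ) ≤ k s)]
    have h2 := up_bound hε (by rw [hXsr]; positivity) (hqp s) hM hMR hε1 (hh s) I le_rfl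
    rw [hXsr] at h2
    calc (k s : ℝ) * |∑ i ∈ Finset.range I, (h s i : ℝ) * q s i|
        ≤ K * (ε * ((X * (Y:ℝ) ^ s) * R ^ I)) := by
          gcongr
          exact hkK s
      _ ≤ K * (1 * ((X * (Y:ℝ) ^ s) * R ^ I)) := by gcongr
      _ = _ := by ring
  have hd1 : ∀ s, 2 * ε ≤ |(w s : ℝ)| * |w s * α - P s| := by
    intro s
    have h2 : q₀ ≤ (w s).natAbs := by
      have h3 := hw1 s
      have h4 := hXsr' s
      have h5 : (q₀:ℝ) ≤ ((w s).natAbs : ℝ) := by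
        rw [Nat.cast_natAbs]; push_cast
        nlinarith
      exact_mod_cast h5
    have e1 : (((w s).natAbs : ℕ) : ℝ) = |(w s : ℝ)| := by
      rw [Nat.cast_natAbs]; push_cast; rfl
    rcases Int.natAbs_eq (w s) with h3 | h3
    · have h4 := h1 _ h2 (P s)
      rw [e1] at h4
      have e2 : |(w s : ℝ)| = (w s : ℝ) := by
        rw [← e1]; conv_rhs => rw [h3]
        simp
      rw [e2] at h4 ⊢
      exact h4
    · have h4 := h1 _ h2 (-P s)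
      rw [e1] at h4
      have e2 : |(w s : ℝ)| = -(w s : ℝ) := by
        rw [← e1]; conv_rhs => rw [h3]
        simp
      rw [e2] at h4 ⊢
      push_cast at h4
      have e3 : -(w s : ℝ) * α - -(P s : ℝ) = -((w s : ℝ) * α - P s) := by ring
      rw [e3, abs_neg] at h4
      exact h4
  have hd2 : ∀ s, |w s * α - P s| ≤ (2 * K * M) / (X * (Y:ℝ) ^ s) := by
    intro s
    rw [hPr, abs_mul, abs_of_nonneg (by linarith [hk1r s] : (0:ℝ) ≤ k s)]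
    have h2 := app_bound (by rw [hXsr]; positivity) (hqp s) hM (by linarith) (hh s) I le_rfl
    rw [hXsr] at h2
    calc (k s : ℝ) * |∑ i ∈ Finset.range I, (h s i : ℝ) * (q s i * α - p s i)|
        ≤ K * (2 * M / (X * (Y:ℝ) ^ s) * (1 - 1 / R ^ I)) := by
          gcongr
          exact hkK s
      _ ≤ K * (2 * M / (X * (Y:ℝ) ^ s) * 1) := by
          gcongr
          have : (0:ℝ) ≤ 1 / R ^ I := by positivity
          linarith
      _ = _ := by ring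
  have ht' : ∀ s, |w s * θ - t s| ≤ τ := by
    intro s
    rw [hwr]
    exact ht s
  have hRI0 : (0:ℝ) < R ^ I := by positivity
  obtain ⟨c, hc1, hc2, u, v, huv⟩ := det_core α θ w P t ε X Y (K * R ^ I) (2 * K * M) τ hε hXr hY1
    (by positivity) (by positivity) hw1 hw2 hd1 hd2 ht'
    (by
      rw [hYr]
      have e1 : ((K:ℝ) * R ^ I) ^ 2 * (2 * K * M) = 2 * (K ^ 3 * (R ^ I) ^ 2) * M := by ring
      have e2 : 2 * ε ^ 2 * ((K:ℝ) ^ 2 * R ^ (I + 1)) ^ 2 =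
        2 * (K ^ 3 * (R ^ I) ^ 2) * (K * (ε * R) ^ 2) := by ring
      rw [e1, e2]
      have h2 : (M:ℝ) < K * (ε * R) ^ 2 := by
        have h3 : (12:ℝ) * M ≤ (12 * M) ^ 2 := by nlinarith
        have h4 : (12 * (M:ℝ)) ^ 2 < (ε * R) ^ 2 := by gcongr
        have h5 : (ε * R) ^ 2 ≤ K * (ε * R) ^ 2 := by nlinarith [sq_nonneg (ε * (R:ℝ))]
        nlinarith
      gcongr)
    (by
      rw [hYr]
      have e1 : 6 * ((K:ℝ) * R ^ I) * (2 * K * M) * (K ^ 2 * R ^ (I + 1)) ^ 2 * τ * R =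
        12 * M * (K ^ 6 * R ^ (3 * I + 3) * τ) := by ring
      have h2 : 12 * M * ((K:ℝ) ^ 6 * R ^ (3 * I + 3) * τ) ≤ 12 * M * 1 := by gcongr
      rw [← e1] at h2
      by_contra h3
      push Not at h3
      nlinarith)
  refine hθ c hc1 ?_ u v huv
  have h2 : (c:ℝ) ≤ K ^ 4 * R ^ (2 * I + 2) := by
    refine hc2.trans ?_
    rw [hYr]
    have e1 : 2 * ((K:ℝ) * R ^ I) * (2 * K * M) * (K ^ 2 * R ^ (I + 1)) =
      K ^ 4 * R ^ (2 * I + 1) * (4 * M) := by ring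
    have e2 : (K:ℝ) ^ 4 * R ^ (2 * I + 2) = K ^ 4 * R ^ (2 * I + 1) * R := by ring
    rw [e1, e2]
    gcongr
    linarith
  exact_mod_cast h2

end Pool.Agent.TH869.LPS
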